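import Pool.Agent.MPc64be7Lib.Fourier
set_option autoImplicit false

open Real Set

namespace Pool.Agent.MPc64be7Lib

/-- Data of an odd, bounded, nondecreasing nonlinearity with slopes at most `a`. -/
structure NL (a B : ℝ) (f : ℝ → ℝ) (F : ℝ → ℝ) (f' : ℝ → ℝ) : Prop where
  ha : 0 < a
  hB : 0 ≤ B
  hf : ∀ x, HasDerivAt f (f' x) x
  hF : ∀ x, HasDerivAt F (f x) x
  h0 : ∀ x, 0 ≤ f' x
  h1 : ∀ x, f' x ≤ a
  odd : ∀ x, f (-x) = -f x
  even : ∀ x, F (-x) = F x
  F0 : F 0 = 0
  bd : ∀ x, |f x| ≤ B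

variable {a B : ℝ} {f F f' : ℝ → ℝ}

/-- potential -/
noncomputable def Pi' (a : ℝ) (f F : ℝ → ℝ) (x : ℝ) : ℝ := F x - f x ^ 2 / (2 * a)

/-- shifted variable -/
noncomputable def w (a : ℝ) (f : ℝ → ℝ) (x : ℝ) : ℝ := x - f x / a

namespace NL

theorem f_zero (h : NL a B f F f') : f 0 = 0 := by
  have := h.odd 0
  simp at this
  linarith

theorem mono (h : NL a B f F f') : Monotone f :=
  monotone_of_deriv_nonneg (fun x => (h.hf x).differentiableAt)
    (fun x => by rw [(h.hf x).deriv]; exact h.h0 x)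

theorem hasDerivAt_w (h : NL a B f F f') (x : ℝ) : HasDerivAt (w a f) (1 - f' x / a) x :=
  (hasDerivAt_id x).fun_sub ((h.hf x).div_const a)

theorem w_mono (h : NL a B f F f') : Monotone (w a f) := by
  apply monotone_of_deriv_nonneg (fun x => (h.hasDerivAt_w x).differentiableAt)
  intro x
  rw [(h.hasDerivAt_w x).deriv]
  have := h.h1 x
  have := h.ha
  rw [sub_nonneg, div_le_one h.ha]
  exact h.h1 x

theorem w_odd (h : NL a B f F f') (x : ℝ) : w a f (-x) = -w a f x := by
  unfold w
  rw [h.odd]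
  ring

theorem pot_even (h : NL a B f F f') (x : ℝ) : Pi' a f F (-x) = Pi' a f F x := by
  unfold Pi'
  rw [h.odd, h.even]
  ring

theorem pot_zero (h : NL a B f F f') : Pi' a f F 0 = 0 := by
  unfold Pi'
  rw [h.F0, h.f_zero]
  ring

theorem convex_ineq (h : NL a B f F f') (z z' : ℝ) :
    Pi' a f F z + f z * (w a f z' - w a f z) ≤ Pi' a f F z' := by
  set g : ℝ → ℝ := fun x => Pi' a f F x - f z * w a f x with hg
  have hgd : ∀ x, HasDerivAt g ((f x - f z) * (1 - f' x / a)) x := by
    intro x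
    have h1 := ((h.hF x).fun_sub (((h.hf x).fun_pow 2).div_const (2 * a))).fun_sub
      ((h.hasDerivAt_w x).const_mul (f z))
    have h2 : HasDerivAt g _ x := h1
    convert h2 using 1
    have := h.ha
    field_simp
    ring
  have hw : ∀ x, 0 ≤ 1 - f' x / a := by
    intro x
    rw [sub_nonneg, div_le_one h.ha]
    exact h.h1 x
  have hcont : Continuous g := continuous_iff_continuousAt.mpr fun x => (hgd x).continuousAt
  have key : g z ≤ g z' := by
    rcases lt_trichotomy z z' with hlt | heq | hgt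
    · obtain ⟨c, hc, e⟩ := exists_hasDerivAt_eq_slope g _ hlt hcont.continuousOn
        (fun x _ => hgd x)
      have h1 : 0 ≤ (f c - f z) * (1 - f' c / a) :=
        mul_nonneg (by linarith [h.mono hc.1.le]) (hw c)
      rw [e] at h1
      have h2 : 0 < z' - z := by linarith
      have h3 := mul_nonneg h1 h2.le
      rw [div_mul_cancel₀ _ h2.ne'] at h3
      linarith
    · rw [heq]
    · obtain ⟨c, hc, e⟩ := exists_hasDerivAt_eq_slope g _ hgt hcont.continuousOn
        (fun x _ => hgd x)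
      have h1 : (f c - f z) * (1 - f' c / a) ≤ 0 :=
        mul_nonpos_of_nonpos_of_nonneg (by linarith [h.mono hc.2.le]) (hw c)
      rw [e] at h1
      have h2 : 0 < z - z' := by linarith
      have h3 := mul_nonpos_of_nonpos_of_nonneg h1 h2.le
      rw [div_mul_cancel₀ _ h2.ne'] at h3
      linarith
  simp only [hg] at key
  linarith

theorem pair_ineq (h : NL a B f F f') (z z' : ℝ) :
    Pi' a f F z - Pi' a f F z' ≤ f z * (w a f z + w a f z') := by
  have := h.convex_ineq (-z) z'
  rw [h.pot_even, h.odd, h.w_odd] at this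
  linarith

theorem pot_nonneg (h : NL a B f F f') (z : ℝ) : 0 ≤ Pi' a f F z := by
  have := h.convex_ineq 0 z
  rw [h.pot_zero, h.f_zero] at this
  linarith

theorem pot_le (h : NL a B f F f') (z : ℝ) : Pi' a f F z ≤ f z * w a f z := by
  have := h.convex_ineq z 0
  have hw0 : w a f 0 = 0 := by unfold w; rw [h.f_zero]; simp
  rw [h.pot_zero, hw0] at this
  linarith

theorem fw_le (h : NL a B f F f') (z : ℝ) : f z * w a f z ≤ B * |z| := by
  unfold w
  have h1 : f z * (z - f z / a) = f z * z - f z ^ 2 / a := by ring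
  have h2 : 0 ≤ f z ^ 2 / a := by have := h.ha; positivity
  have h3 : f z * z ≤ |f z * z| := le_abs_self _
  rw [abs_mul] at h3
  have h4 := h.bd z
  have h5 : |f z| * |z| ≤ B * |z| := by gcongr
  linarith

theorem abs_le_mul (h : NL a B f F f') (z : ℝ) : |f z| ≤ a * |z| := by
  have hw0 : w a f 0 = 0 := by unfold w; rw [h.f_zero]; simp
  rcases le_total 0 z with hz | hz
  · have h1 := h.w_mono hz
    have h2 := h.mono hz
    rw [hw0] at h1
    rw [h.f_zero] at h2
    rw [abs_of_nonneg h2, abs_of_nonneg hz]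
    unfold w at h1
    have := h.ha
    have h3 : f z / a ≤ z := by linarith
    rw [div_le_iff₀ h.ha] at h3
    linarith
  · have h1 := h.w_mono hz
    have h2 := h.mono hz
    rw [hw0] at h1
    rw [h.f_zero] at h2
    rw [abs_of_nonpos h2, abs_of_nonpos hz]
    unfold w at h1
    have := h.ha
    have h3 : z ≤ f z / a := by linarith
    rw [le_div_iff₀ h.ha] at h3
    linarith

theorem fw_nonneg (h : NL a B f F f') (z : ℝ) : 0 ≤ f z * w a f z :=
  (h.pot_nonneg z).trans (h.pot_le z)

end NL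

section dyn

variable {k : ℕ} {z : ℕ → ℝ}

theorem hist_sum (hz : ∀ n, z (n + k + 1) = z (n + k) - f (z n)) (n : ℕ) :
    ∀ j, j ≤ k → j ≤ n →
      ∑ l ∈ Finset.range j, (if l + 1 ≤ n then f (z (n - (l + 1))) else 0) = z (n + k - j) - z (n + k) := by
  intro j
  induction j with
  | zero => intro _ _; simp
  | succ j ih =>
    intro h1 h2
    rw [Finset.sum_range_succ, ih (by omega) (by omega), if_pos (by omega)]
    have := hz (n - (j + 1))
    have e1 : n - (j + 1) + k + 1 = n + k - j := by omega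
    have e2 : n - (j + 1) + k = n + k - (j + 1) := by omega
    rw [e1, e2] at this
    linarith

/-- the local quadratic term -/
noncomputable def qn (a η : ℝ) (k : ℕ) (v : ℕ → ℝ) (n : ℕ) : ℝ :=
  (1 / a - 1 / 2) * v n ^ 2 - ∑ l ∈ Finset.range k, (if l + 1 ≤ n then v n * v (n - (l + 1)) else 0)
    + η / (2 * a) * (v n * v (n + k) + v n * v (n + (k + 1)))

theorem pointwise (h : NL a B f F f') (η : ℝ) (hη : 0 ≤ η)
    (hz : ∀ n, z (n + k + 1) = z (n + k) - f (z n)) (n : ℕ) (hn : k ≤ n) :
    (1 - η) * (f (z n) * w a f (z n)) + qn a η k (fun n => f (z n)) n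
      ≤ (1 + η) / 2 * (z (n + k) ^ 2 - z (n + (k + 1)) ^ 2)
        + η / 2 * (Pi' a f F (z (n + k)) + Pi' a f F (z (n + (k + 1))) - 2 * Pi' a f F (z n)) := by
  have h1 := hist_sum hz n k le_rfl hn
  have h2 := h.pair_ineq (z n) (z (n + k))
  have h3 := h.pair_ineq (z n) (z (n + (k + 1)))
  have h4 := hz n
  rw [add_assoc n k 1] at h4
  have e : n + k - k = n := by omega
  rw [e] at h1
  have h5 : ∑ l ∈ Finset.range k, (if l + 1 ≤ n then f (z n) * f (z (n - (l + 1))) else 0)
      = f (z n) * (z n - z (n + k)) := by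
    rw [← h1, Finset.mul_sum]
    apply Finset.sum_congr rfl
    intro l _
    split_ifs <;> ring
  unfold qn
  simp only []
  rw [h5]
  have hv : f (z n) = z (n + k) - z (n + (k + 1)) := by linarith
  have ha := h.ha
  have h6 := mul_le_mul_of_nonneg_left h2 (by linarith : 0 ≤ η / 2)
  have h7 := mul_le_mul_of_nonneg_left h3 (by linarith : 0 ≤ η / 2)
  unfold w at *
  set v := f (z n)
  set A := z (n + k)
  set C := z (n + (k + 1))
  set vA := f A
  set vC := f C
  have id1 : v * (A + C) = A ^ 2 - C ^ 2 := by rw [hv]; ring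
  have id2 : v * A = (A ^ 2 - C ^ 2) / 2 + v ^ 2 / 2 := by rw [hv]; ring
  have id3 : v * (v / a) = v ^ 2 / a := by ring
  have e1 : (1 - η) * (v * (z n - v / a))
      + ((1 / a - 1 / 2) * v ^ 2 - v * (z n - A) + η / (2 * a) * (v * vA + v * vC))
      = (v * A - v ^ 2 / 2) + η / 2 * (v * (A + C))
        - (η / 2 * (v * (z n - v / a + (A - vA / a))) + η / 2 * (v * (z n - v / a + (C - vC / a)))) := by
    field_simp
    ring
  rw [e1, id1]
  nlinarith

end dyn

end Pool.Agent.MPc64be7Lib
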