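import Pool.Agent.MPc64be7Lib.Dyn
set_option autoImplicit false

open Real Set

namespace Pool.Agent.MPc64be7Lib

section corr

variable (v : ℕ → ℝ)

theorem R_zero (N : ℕ) : R v 0 N = ∑ n ∈ Finset.range N, v n ^ 2 := by
  unfold R
  apply Finset.sum_congr rfl
  intro n _
  simp [sq]

theorem R_succ (l N : ℕ) : R v l (N + 1) = R v l N + (if l ≤ N then v N * v (N - l) else 0) := by
  unfold R
  rw [Finset.sum_range_succ]

theorem R_shift (l N : ℕ) : R v l (N + l) = ∑ n ∈ Finset.range N, v n * v (n + l) := by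
  induction N with
  | zero =>
    unfold R
    simp only [zero_add, Finset.range_zero, Finset.sum_empty]
    apply Finset.sum_eq_zero
    intro n hn
    rw [if_neg]
    have := Finset.mem_range.mp hn
    omega
  | succ N ih =>
    rw [Finset.sum_range_succ, ← ih]
    have : N + 1 + l = (N + l) + 1 := by omega
    rw [this, R_succ, if_pos (by omega)]
    have e : N + l - l = N := by omega
    rw [e]
    ring

theorem R_end (K l N : ℕ) (hl : l ≤ K) (e : ℝ) (he : 0 ≤ e) (hv : ∀ n, N ≤ n + K → |v n| ≤ e) (j : ℕ) :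
    R v l N - j * e ^ 2 ≤ R v l (N + j) := by
  induction j with
  | zero => simp
  | succ j ih =>
    have e1 : N + (j + 1) = (N + j) + 1 := by omega
    rw [e1, R_succ]
    have hb : -(e ^ 2) ≤ (if l ≤ N + j then v (N + j) * v (N + j - l) else 0) := by
      split_ifs with h
      · have h1 := hv (N + j) (by omega)
        have h2 := hv (N + j - l) (by omega)
        have h3 : |v (N + j) * v (N + j - l)| ≤ e * e := by
          rw [abs_mul]
          gcongr
        have := (abs_le.mp h3).1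
        nlinarith
      · nlinarith [sq_nonneg e]
    push_cast
    linarith

theorem sum_qn (a η : ℝ) (k N : ℕ) : ∑ n ∈ Finset.range N, qn a η k v n
    = (1 / a - 1 / 2) * R v 0 N - ∑ l ∈ Finset.range k, R v (l + 1) N
      + η / (2 * a) * (R v k (N + k) + R v (k + 1) (N + (k + 1))) := by
  unfold qn
  rw [Finset.sum_add_distrib, Finset.sum_sub_distrib, ← Finset.mul_sum, ← R_zero, Finset.sum_comm,
    R_shift, R_shift, ← Finset.sum_add_distrib, ← Finset.mul_sum]
  rfl

theorem sum_qn_ge (k : ℕ) (hk : 2 ≤ k) (a : ℝ) (ha : 0 < a) (ha2 : a ≤ 2 * sm (2 * k + 1))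
    (N : ℕ) (e : ℝ) (he : 0 ≤ e) (hv : ∀ n, N ≤ n + (k + 1) → |v n| ≤ e) :
    -(et (2 * k + 1) / (2 * a) * ((2 * k + 1) * e ^ 2))
      ≤ ∑ n ∈ Finset.range N, qn a (et (2 * k + 1)) k v n := by
  rw [sum_qn]
  have h1 := toeplitz_nonneg v k hk a ha ha2 N
  have h2 := R_end v (k + 1) k N (by omega) e he hv k
  have h3 := R_end v (k + 1) (k + 1) N (by omega) e he hv (k + 1)
  have hη : 0 < et (2 * k + 1) := et_pos _ (by omega)
  set η := et (2 * k + 1)
  have h4 : η / (2 * a) * (R v k N - k * e ^ 2 + (R v (k + 1) N - (k + 1 : ℕ) * e ^ 2))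
      ≤ η / (2 * a) * (R v k (N + k) + R v (k + 1) (N + (k + 1))) := by
    gcongr
  have h5 : η / (2 * a) * (R v k N - k * e ^ 2 + (R v (k + 1) N - (k + 1 : ℕ) * e ^ 2))
      = η / (2 * a) * (R v k N + R v (k + 1) N) - η / (2 * a) * ((2 * k + 1) * e ^ 2) := by
    push_cast; ring
  linarith

theorem tele_le (g : ℕ → ℝ) (hg : ∀ n, 0 ≤ g n) (k l J : ℕ) :
    ∑ j ∈ Finset.range J, (g (k + j + l) - g (k + j)) ≤ ∑ i ∈ Finset.range l, g (k + J + i) := by
  induction J with
  | zero => simpa using Finset.sum_nonneg fun i _ => hg _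
  | succ J ih =>
    rw [Finset.sum_range_succ]
    have h1 := Finset.sum_range_succ (fun i => g (k + J + i)) l
    have h2 := Finset.sum_range_succ' (fun i => g (k + J + i)) l
    rw [h1] at h2
    have h3 : ∑ i ∈ Finset.range l, g (k + (J + 1) + i) = ∑ i ∈ Finset.range l, g (k + J + (i + 1)) := by
      apply Finset.sum_congr rfl
      intro i _
      congr 1
      omega
    rw [h3]
    simp only [add_zero] at h2
    linarith

end corr

section main

variable {a B : ℝ} {f F f' : ℝ → ℝ} {k : ℕ} {z : ℕ → ℝ}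

/-- initial functional -/
noncomputable def I0 (a : ℝ) (f : ℝ → ℝ) (k : ℕ) (z : ℕ → ℝ) : ℝ :=
  (1 + et (2 * k + 1)) / 2 * z (k + k) ^ 2
    + ∑ n ∈ Finset.range k, qn a (et (2 * k + 1)) k (fun n => f (z n)) n

theorem main_ineq (h : NL a B f F f') (hk : 2 ≤ k) (ha2 : a ≤ 2 * sm (2 * k + 1))
    (hz : ∀ n, z (n + k + 1) = z (n + k) - f (z n)) (J : ℕ)
    (e : ℝ) (he : 0 ≤ e) (hv : ∀ n, k + J ≤ n + (k + 1) → |f (z n)| ≤ e) :
    (1 - et (2 * k + 1)) * ∑ j ∈ Finset.range J, f (z (k + j)) * w a f (z (k + j))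
      + (1 + et (2 * k + 1)) / 2 * z (k + J + k) ^ 2
      ≤ I0 a f k z + et (2 * k + 1) / (2 * a) * ((2 * k + 1) * e ^ 2)
        + et (2 * k + 1) / 2 * (∑ i ∈ Finset.range k, Pi' a f F (z (k + J + i))
          + ∑ i ∈ Finset.range (k + 1), Pi' a f F (z (k + J + i))) := by
  have hη : 0 < et (2 * k + 1) := et_pos _ (by omega)
  have hq := sum_qn_ge (fun n => f (z n)) k hk a h.ha ha2 (k + J) e he hv
  unfold I0
  set η := et (2 * k + 1) with hηdef
  have hpt : ∑ j ∈ Finset.range J, ((1 - η) * (f (z (k + j)) * w a f (z (k + j)))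
      + qn a η k (fun n => f (z n)) (k + j))
      ≤ ∑ j ∈ Finset.range J, ((1 + η) / 2 * (z (k + j + k) ^ 2 - z (k + j + (k + 1)) ^ 2)
        + η / 2 * (Pi' a f F (z (k + j + k)) + Pi' a f F (z (k + j + (k + 1)))
          - 2 * Pi' a f F (z (k + j)))) := by
    apply Finset.sum_le_sum
    intro j _
    exact pointwise h η hη.le hz (k + j) (by omega)
  rw [Finset.sum_add_distrib, ← Finset.mul_sum] at hpt
  have hsplit := Finset.sum_range_add (fun n => qn a η k (fun n => f (z n)) n) k J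
  rw [hsplit] at hq
  have htel1 : ∑ j ∈ Finset.range J, (1 + η) / 2 * (z (k + j + k) ^ 2 - z (k + j + (k + 1)) ^ 2)
      = (1 + η) / 2 * (z (k + k) ^ 2 - z (k + J + k) ^ 2) := by
    rw [← Finset.mul_sum]
    congr 1
    have := Finset.sum_range_sub' (fun j => z (k + j + k) ^ 2) J
    simp only [add_zero] at this
    rw [← this]
    apply Finset.sum_congr rfl
    intro j _
    have e1 : k + j + (k + 1) = k + (j + 1) + k := by omega
    rw [e1]
  have ht1 := tele_le (fun n => Pi' a f F (z n)) (fun n => h.pot_nonneg _) k k J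
  have ht2 := tele_le (fun n => Pi' a f F (z n)) (fun n => h.pot_nonneg _) k (k + 1) J
  have htel2 : ∑ j ∈ Finset.range J, η / 2 * (Pi' a f F (z (k + j + k))
        + Pi' a f F (z (k + j + (k + 1))) - 2 * Pi' a f F (z (k + j)))
      ≤ η / 2 * (∑ i ∈ Finset.range k, Pi' a f F (z (k + J + i))
          + ∑ i ∈ Finset.range (k + 1), Pi' a f F (z (k + J + i))) := by
    rw [← Finset.mul_sum]
    apply mul_le_mul_of_nonneg_left _ (by linarith)
    have : ∑ j ∈ Finset.range J, (Pi' a f F (z (k + j + k))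
        + Pi' a f F (z (k + j + (k + 1))) - 2 * Pi' a f F (z (k + j)))
        = ∑ j ∈ Finset.range J, (Pi' a f F (z (k + j + k)) - Pi' a f F (z (k + j)))
          + ∑ j ∈ Finset.range J, (Pi' a f F (z (k + j + (k + 1))) - Pi' a f F (z (k + j))) := by
      rw [← Finset.sum_add_distrib]
      apply Finset.sum_congr rfl
      intro j _
      ring
    rw [this]
    linarith
  rw [Finset.sum_add_distrib, htel1] at hpt
  linarith

theorem et_lt_one (hk : 2 ≤ k) : et (2 * k + 1) ≤ 2 / 3 := et_le _ (by omega) (by omega)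

/-- `f(z) w(z)` is summable along solutions; bounded partial sums -/
theorem bounded_sum (h : NL a B f F f') (hk : 2 ≤ k) (ha2 : a ≤ 2 * sm (2 * k + 1))
    (hz : ∀ n, z (n + k + 1) = z (n + k) - f (z n)) :
    ∃ C, ∀ J, ∑ j ∈ Finset.range J, f (z (k + j)) * w a f (z (k + j)) ≤ C := by
  have hη : 0 < et (2 * k + 1) := et_pos _ (by omega)
  have hη2 := et_lt_one hk
  set D := (2 * (k : ℝ) + 1) * B with hD
  set C1 := I0 a f k z + et (2 * k + 1) / (2 * a) * ((2 * k + 1) * B ^ 2)
    + (D * (k * B) + D ^ 2 / 2) with hC1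
  refine ⟨3 * |C1|, fun J => ?_⟩
  have hmain := main_ineq h hk ha2 hz J B h.hB (fun n _ => h.bd _)
  -- bound of |z (k+J+i)|
  have hstep : ∀ i, i ≤ k → |z (k + J + i)| ≤ |z (k + J + k)| + k * B := by
    have hst : ∀ j, j ≤ k → |z (k + J + (k - j))| ≤ |z (k + J + k)| + j * B := by
      intro j
      induction j with
      | zero => intro _; simp
      | succ j ih =>
        intro hj
        have h1 := ih (by omega)
        have h2 := hz (J + (k - (j + 1)))
        have e1 : J + (k - (j + 1)) + k + 1 = k + J + (k - j) := by omega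
        have e2 : J + (k - (j + 1)) + k = k + J + (k - (j + 1)) := by omega
        rw [e1, e2] at h2
        have h3 : z (k + J + (k - (j + 1))) = z (k + J + (k - j)) + f (z (J + (k - (j + 1)))) := by
          linarith
        rw [h3]
        have h4 := abs_add_le (z (k + J + (k - j))) (f (z (J + (k - (j + 1)))))
        have h5 := h.bd (z (J + (k - (j + 1))))
        push_cast
        linarith
    intro i hi
    have h1 := hst (k - i) (by omega)
    have e1 : k - (k - i) = i := by omega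
    rw [e1] at h1
    have h2 : ((k - i : ℕ) : ℝ) ≤ k := by exact_mod_cast Nat.sub_le k i
    have hB := h.hB
    nlinarith
  have hpot : ∀ i, i ≤ k → Pi' a f F (z (k + J + i)) ≤ B * (|z (k + J + k)| + k * B) := by
    intro i hi
    have h1 := h.pot_le (z (k + J + i))
    have h2 := h.fw_le (z (k + J + i))
    have h3 := hstep i hi
    have h4 : B * |z (k + J + i)| ≤ B * (|z (k + J + k)| + k * B) := by
      have := h.hB
      gcongr
    linarith
  have hs1 : ∑ i ∈ Finset.range k, Pi' a f F (z (k + J + i)) ≤ k * (B * (|z (k + J + k)| + k * B)) := by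
    have := Finset.sum_le_card_nsmul (Finset.range k) (fun i => Pi' a f F (z (k + J + i)))
      (B * (|z (k + J + k)| + k * B)) (fun i hi => hpot i (Finset.mem_range.mp hi).le)
    simpa using this
  have hs2 : ∑ i ∈ Finset.range (k + 1), Pi' a f F (z (k + J + i))
      ≤ (k + 1) * (B * (|z (k + J + k)| + k * B)) := by
    have := Finset.sum_le_card_nsmul (Finset.range (k + 1)) (fun i => Pi' a f F (z (k + J + i)))
      (B * (|z (k + J + k)| + k * B))
      (fun i hi => hpot i (by have := Finset.mem_range.mp hi; omega))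
    simpa using this
  set η := et (2 * k + 1)
  set X := |z (k + J + k)| with hX
  have hX0 : 0 ≤ X := abs_nonneg _
  have hX2 : z (k + J + k) ^ 2 = X ^ 2 := by rw [hX, sq_abs]
  rw [hX2] at hmain
  have hB := h.hB
  have hk0 : (0 : ℝ) ≤ k := Nat.cast_nonneg k
  have hD0 : 0 ≤ D := by positivity
  have hsum : η / 2 * (∑ i ∈ Finset.range k, Pi' a f F (z (k + J + i))
          + ∑ i ∈ Finset.range (k + 1), Pi' a f F (z (k + J + i))) ≤ D * (k * B) + D * X := by
    have h1 : ∑ i ∈ Finset.range k, Pi' a f F (z (k + J + i))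
          + ∑ i ∈ Finset.range (k + 1), Pi' a f F (z (k + J + i)) ≤ D * (X + k * B) := by
      rw [hD]
      nlinarith
    have h2 : 0 ≤ D * (X + k * B) := by positivity
    have h3 : η / 2 * (∑ i ∈ Finset.range k, Pi' a f F (z (k + J + i))
          + ∑ i ∈ Finset.range (k + 1), Pi' a f F (z (k + J + i))) ≤ η / 2 * (D * (X + k * B)) := by
      gcongr
    nlinarith
  have hfin : (1 - η) * ∑ j ∈ Finset.range J, f (z (k + j)) * w a f (z (k + j)) ≤ C1 := by
    have h1 : D * X ≤ D ^ 2 / 2 + X ^ 2 / 2 := by nlinarith [sq_nonneg (D - X)]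
    have h2 : X ^ 2 / 2 ≤ (1 + η) / 2 * X ^ 2 := by nlinarith [sq_nonneg X]
    rw [hC1]
    linarith
  have hS0 : 0 ≤ ∑ j ∈ Finset.range J, f (z (k + j)) * w a f (z (k + j)) :=
    Finset.sum_nonneg fun j _ => h.fw_nonneg _
  have h3 := le_abs_self C1
  nlinarith

theorem tendsto_fw (h : NL a B f F f') (hk : 2 ≤ k) (ha2 : a ≤ 2 * sm (2 * k + 1))
    (hz : ∀ n, z (n + k + 1) = z (n + k) - f (z n)) :
    Filter.Tendsto (fun n => f (z n) * w a f (z n)) Filter.atTop (nhds 0) := by
  obtain ⟨C, hC⟩ := bounded_sum h hk ha2 hz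
  have hsum : Summable (fun j => f (z (k + j)) * w a f (z (k + j))) :=
    summable_of_sum_range_le (fun j => h.fw_nonneg _) hC
  have h1 := hsum.tendsto_atTop_zero
  rw [← Filter.tendsto_add_atTop_iff_nat k]
  refine h1.congr fun j => ?_
  rw [add_comm]

theorem tendsto_zero (h : NL a B f F f') (hk : 2 ≤ k) (ha2 : a ≤ 2 * sm (2 * k + 1))
    (hpos : ∀ ε > 0, ∃ c > 0, ∀ x, ε ≤ |x| → c ≤ f x * w a f x)
    (hz : ∀ n, z (n + k + 1) = z (n + k) - f (z n)) :
    Filter.Tendsto z Filter.atTop (nhds 0) := by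
  have h1 := tendsto_fw h hk ha2 hz
  rw [Metric.tendsto_atTop] at h1 ⊢
  intro ε hε
  obtain ⟨c, hc, hcx⟩ := hpos ε hε
  obtain ⟨N, hN⟩ := h1 c hc
  refine ⟨N, fun n hn => ?_⟩
  have h2 := hN n hn
  rw [Real.dist_eq, sub_zero] at h2 ⊢
  by_contra h3
  push Not at h3
  have h4 := hcx (z n) h3
  have h5 := le_abs_self (f (z n) * w a f (z n))
  linarith

end main

end Pool.Agent.MPc64be7Lib
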