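import Pool.Agent.MPc64be7Lib.Trig2
set_option autoImplicit false

open Real Set

namespace Pool.Agent.MPc64be7Lib

theorem int_cos (p : ℤ) : ∫ x in (0:ℝ)..π, cos (p * x) = if p = 0 then π else 0 := by
  split_ifs with h
  · simp [h]
  · have hp : (p : ℝ) ≠ 0 := by exact_mod_cast h
    rw [intervalIntegral.integral_comp_mul_left (fun x => cos x) hp]
    simp [integral_cos, sin_int_mul_pi]

theorem int_cos_cos (l n n' : ℕ) :
    ∫ x in (0:ℝ)..π, cos (l * x) * cos (((n : ℝ) - n') * x)
      = π / 2 * ((if n = n' + l then 1 else 0) + (if n' = n + l then 1 else 0)) := by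
  have h1 : ∀ x : ℝ, cos (l * x) * cos (((n : ℝ) - n') * x)
      = 1 / 2 * (cos (((l + n' - n : ℤ) : ℝ) * x) + cos (((l + n - n' : ℤ) : ℝ) * x)) := by
    intro x
    have e1 : ((l + n' - n : ℤ) : ℝ) * x = l * x - ((n : ℝ) - n') * x := by push_cast; ring
    have e2 : ((l + n - n' : ℤ) : ℝ) * x = l * x + ((n : ℝ) - n') * x := by push_cast; ring
    rw [e1, e2, cos_sub, cos_add]
    ring
  simp_rw [h1]
  rw [intervalIntegral.integral_const_mul, intervalIntegral.integral_add, int_cos, int_cos]
  · have c1 : ((l : ℤ) + n' - n = 0) ↔ n = n' + l := by omega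
    have c2 : ((l : ℤ) + n - n' = 0) ↔ n' = n + l := by omega
    simp only [c1, c2]
    split_ifs <;> ring
  · exact (by fun_prop : Continuous _).intervalIntegrable _ _
  · exact (by fun_prop : Continuous _).intervalIntegrable _ _

variable (v : ℕ → ℝ)

/-- autocorrelation -/
noncomputable def R (l N : ℕ) : ℝ := ∑ n ∈ Finset.range N, if l ≤ n then v n * v (n - l) else 0

/-- power spectrum -/
noncomputable def W (N : ℕ) (x : ℝ) : ℝ :=
  ∑ n ∈ Finset.range N, ∑ n' ∈ Finset.range N, v n * v n' * cos (((n : ℝ) - n') * x)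

theorem W_nonneg (N : ℕ) (x : ℝ) : 0 ≤ W v N x := by
  have : W v N x = (∑ n ∈ Finset.range N, v n * cos (n * x)) ^ 2
      + (∑ n ∈ Finset.range N, v n * sin (n * x)) ^ 2 := by
    unfold W
    rw [sq, sq, Finset.sum_mul_sum, Finset.sum_mul_sum, ← Finset.sum_add_distrib]
    apply Finset.sum_congr rfl
    intro n _
    rw [← Finset.sum_add_distrib]
    apply Finset.sum_congr rfl
    intro n' _
    rw [sub_mul, cos_sub]
    ring
  rw [this]
  positivity

theorem W_cont (N : ℕ) : Continuous (W v N) := by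
  unfold W
  fun_prop

theorem sum_delta (l N : ℕ) : ∑ n ∈ Finset.range N, ∑ n' ∈ Finset.range N,
    v n * v n' * (if n = n' + l then (1 : ℝ) else 0) = R v l N := by
  unfold R
  apply Finset.sum_congr rfl
  intro n hn
  split_ifs with h
  · rw [Finset.sum_eq_single (n - l)]
    · rw [if_pos (by omega)]; ring
    · intro b _ hb
      rw [if_neg (by omega)]; ring
    · intro hb
      exact absurd (Finset.mem_range.mpr (by have := Finset.mem_range.mp hn; omega)) hb
  · apply Finset.sum_eq_zero
    intro b _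
    rw [if_neg (by omega)]; ring

theorem int_cos_W (l N : ℕ) : ∫ x in (0:ℝ)..π, cos (l * x) * W v N x = π * R v l N := by
  have h1 : ∀ x : ℝ, cos (l * x) * W v N x = ∑ n ∈ Finset.range N, ∑ n' ∈ Finset.range N,
      v n * v n' * (cos (l * x) * cos (((n : ℝ) - n') * x)) := by
    intro x
    unfold W
    rw [Finset.mul_sum]
    apply Finset.sum_congr rfl
    intro n _
    rw [Finset.mul_sum]
    apply Finset.sum_congr rfl
    intro n' _
    ring
  simp_rw [h1]
  rw [intervalIntegral.integral_finsetSum]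
  · have h2 : ∀ n ∈ Finset.range N, (∫ x in (0:ℝ)..π, ∑ n' ∈ Finset.range N,
        v n * v n' * (cos (l * x) * cos (((n : ℝ) - n') * x)))
        = ∑ n' ∈ Finset.range N, v n * v n' *
          (π / 2 * ((if n = n' + l then 1 else 0) + (if n' = n + l then 1 else 0))) := by
      intro n _
      rw [intervalIntegral.integral_finsetSum]
      · apply Finset.sum_congr rfl
        intro n' _
        rw [intervalIntegral.integral_const_mul, int_cos_cos]
      · intro n' _
        exact (by fun_prop : Continuous _).intervalIntegrable _ _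
    rw [Finset.sum_congr rfl h2]
    have h3 : ∑ n ∈ Finset.range N, ∑ n' ∈ Finset.range N, v n * v n' *
          (π / 2 * ((if n = n' + l then (1:ℝ) else 0) + (if n' = n + l then 1 else 0)))
        = π / 2 * (∑ n ∈ Finset.range N, ∑ n' ∈ Finset.range N,
            v n * v n' * (if n = n' + l then (1 : ℝ) else 0))
          + π / 2 * (∑ n ∈ Finset.range N, ∑ n' ∈ Finset.range N,
            v n * v n' * (if n' = n + l then (1 : ℝ) else 0)) := by
      rw [Finset.mul_sum, Finset.mul_sum, ← Finset.sum_add_distrib]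
      apply Finset.sum_congr rfl
      intro n _
      rw [Finset.mul_sum, Finset.mul_sum, ← Finset.sum_add_distrib]
      apply Finset.sum_congr rfl
      intro n' _
      ring
    rw [h3, sum_delta]
    have h4 : ∑ n ∈ Finset.range N, ∑ n' ∈ Finset.range N,
            v n * v n' * (if n' = n + l then (1 : ℝ) else 0) = R v l N := by
      rw [Finset.sum_comm, ← sum_delta]
      apply Finset.sum_congr rfl
      intro n _
      apply Finset.sum_congr rfl
      intro n' _
      ring
    rw [h4]
    ring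
  · intro n _
    exact (by fun_prop : Continuous _).intervalIntegrable _ _

/-- Dirichlet kernel identity. -/
theorem dirichlet (k : ℕ) (t : ℝ) :
    2 * sin t * (1 / 2 + ∑ l ∈ Finset.range k, cos (((l + 1 : ℕ) : ℝ) * (2 * t)))
      = sin (((2 * k + 1 : ℕ) : ℝ) * t) := by
  induction k with
  | zero => simp; ring
  | succ k ih =>
    rw [Finset.sum_range_succ]
    have h : 2 * sin t * cos (((k + 1 : ℕ) : ℝ) * (2 * t))
        = sin (((2 * (k + 1) + 1 : ℕ) : ℝ) * t) - sin (((2 * k + 1 : ℕ) : ℝ) * t) := by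
      have e1 : ((2 * (k + 1) + 1 : ℕ) : ℝ) * t = ((k + 1 : ℕ) : ℝ) * (2 * t) + t := by
        push_cast; ring
      have e2 : ((2 * k + 1 : ℕ) : ℝ) * t = ((k + 1 : ℕ) : ℝ) * (2 * t) - t := by
        push_cast; ring
      rw [e1, e2, sin_add, sin_sub]
      ring
    linarith

/-- Nonnegativity of the symbol. -/
theorem symbol_nonneg (k : ℕ) (hk : 2 ≤ k) (a : ℝ) (ha : 0 < a) (ha2 : a ≤ 2 * sm (2 * k + 1))
    (x : ℝ) (h0 : 0 < x) (h1 : x ≤ π) :
    0 ≤ (1 / a - 1 / 2) - ∑ l ∈ Finset.range k, cos (((l + 1 : ℕ) : ℝ) * x)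
      + et (2 * k + 1) / (2 * a) * (cos ((k : ℝ) * x) + cos (((k + 1 : ℕ) : ℝ) * x)) := by
  set m := 2 * k + 1 with hmdef
  have hm : 3 ≤ m := by omega
  have hm5 : 5 ≤ m := by omega
  set t := x / 2 with ht
  have hx : x = 2 * t := by rw [ht]; ring
  have ht0 : 0 < t := by rw [ht]; linarith
  have ht1 : t ≤ π / 2 := by rw [ht]; linarith
  have hH := H_nonneg m hm hm5 ht0 ht1
  have hsin : 0 < sin t := sin_pos_of_pos_of_lt_pi ht0 (by linarith [pi_pos])
  have hd := dirichlet k t
  rw [← hmdef] at hd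
  have hd2 : 1 / 2 + ∑ l ∈ Finset.range k, cos (((l + 1 : ℕ) : ℝ) * (2 * t))
      = sin (m * t) / (2 * sin t) := by
    rw [eq_div_iff (by positivity)]
    linarith
  have hcc : cos ((k : ℝ) * (2 * t)) + cos (((k + 1 : ℕ) : ℝ) * (2 * t))
      = 2 * (cos (m * t) * cos t) := by
    have e1 : (k : ℝ) * (2 * t) = m * t - t := by rw [hmdef]; push_cast; ring
    have e2 : ((k + 1 : ℕ) : ℝ) * (2 * t) = m * t + t := by rw [hmdef]; push_cast; ring
    rw [e1, e2, cos_add, cos_sub]
    ring
  rw [hx, hcc]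
  have he := et_pos m hm
  have he2 := et_le m hm hm5
  have hs := sm_pos m hm
  unfold H at hH
  have hcos1 : -1 ≤ cos (m * t) * cos t := by
    have h2 : |cos (m * t) * cos t| ≤ 1 := by
      rw [abs_mul]
      have := abs_cos_le_one (m * t)
      have := abs_cos_le_one t
      have := abs_nonneg (cos (m * t))
      have := abs_nonneg (cos t)
      nlinarith
    exact (abs_le.mp h2).1
  set C := cos (m * t) * cos t with hC
  have hpos : 0 ≤ 1 + et m * C := by nlinarith
  have hgoal : (1 / a - 1 / 2) - ∑ l ∈ Finset.range k, cos (((l + 1 : ℕ) : ℝ) * (2 * t))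
      + et m / (2 * a) * (2 * C) = (1 + et m * C) / a - sin (m * t) / (2 * sin t) := by
    have hS : ∑ l ∈ Finset.range k, cos (((l + 1 : ℕ) : ℝ) * (2 * t))
      = sin (m * t) / (2 * sin t) - 1 / 2 := by linarith
    rw [hS]
    field_simp
    ring
  rw [hgoal]
  rcases le_or_gt (sin (m * t)) 0 with hneg | hpos2
  · have h3 : sin (m * t) / (2 * sin t) ≤ 0 := div_nonpos_of_nonpos_of_nonneg hneg (by positivity)
    have h4 : 0 ≤ (1 + et m * C) / a := by positivity
    linarith
  · have h5 : (1 + et m * C) / (2 * sm m) ≤ (1 + et m * C) / a := by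
      apply div_le_div_of_nonneg_left hpos ha ha2
    have h6 : sin (m * t) / (2 * sin t) ≤ (1 + et m * C) / (2 * sm m) := by
      rw [div_le_div_iff₀ (by positivity) (by positivity)]
      have h7 : sm m * (sin (m * t) / sin t) ≤ 1 + et m * C := by linarith
      have h8 : sin (m * t) / sin t * sin t = sin (m * t) := by field_simp
      have h9 : sm m * (sin (m * t) / sin t) * sin t ≤ (1 + et m * C) * sin t := by gcongr
      nlinarith
    linarith

/-- The Toeplitz form is nonnegative. -/
theorem toeplitz_nonneg (k : ℕ) (hk : 2 ≤ k) (a : ℝ) (ha : 0 < a) (ha2 : a ≤ 2 * sm (2 * k + 1))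
    (N : ℕ) :
    0 ≤ (1 / a - 1 / 2) * R v 0 N - ∑ l ∈ Finset.range k, R v (l + 1) N
      + et (2 * k + 1) / (2 * a) * (R v k N + R v (k + 1) N) := by
  set c0 := 1 / a - 1 / 2 with hc0
  set c1 := et (2 * k + 1) / (2 * a) with hc1
  have hWc := W_cont v N
  have hint : 0 ≤ ∫ x in (0:ℝ)..π, (c0 - ∑ l ∈ Finset.range k, cos (((l + 1 : ℕ) : ℝ) * x)
      + c1 * (cos ((k : ℝ) * x) + cos (((k + 1 : ℕ) : ℝ) * x))) * W v N x := by
    rw [intervalIntegral.integral_of_le pi_pos.le]
    apply MeasureTheory.setIntegral_nonneg measurableSet_Ioc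
    intro x hx
    exact mul_nonneg (symbol_nonneg k hk a ha ha2 x hx.1 hx.2) (W_nonneg v N x)
  have hexp : ∀ x : ℝ, (c0 - ∑ l ∈ Finset.range k, cos (((l + 1 : ℕ) : ℝ) * x)
      + c1 * (cos ((k : ℝ) * x) + cos (((k + 1 : ℕ) : ℝ) * x))) * W v N x
      = (c0 * (cos (((0 : ℕ) : ℝ) * x) * W v N x)
        - ∑ l ∈ Finset.range k, cos (((l + 1 : ℕ) : ℝ) * x) * W v N x)
      + (c1 * (cos ((k : ℝ) * x) * W v N x) + c1 * (cos (((k + 1 : ℕ) : ℝ) * x) * W v N x)) := by
    intro x
    rw [← Finset.sum_mul]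
    simp only [Nat.cast_zero, zero_mul, cos_zero]
    ring
  simp_rw [hexp] at hint
  rw [intervalIntegral.integral_add, intervalIntegral.integral_sub, intervalIntegral.integral_add,
    intervalIntegral.integral_const_mul, intervalIntegral.integral_const_mul,
    intervalIntegral.integral_const_mul, intervalIntegral.integral_finsetSum] at hint
  · simp_rw [int_cos_W] at hint
    rw [← Finset.mul_sum] at hint
    have h : π * (c0 * R v 0 N - ∑ l ∈ Finset.range k, R v (l + 1) N
      + c1 * (R v k N + R v (k + 1) N)) = c0 * (π * R v 0 N) - π * ∑ i ∈ Finset.range k, R v (i + 1) N +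
      (c1 * (π * R v k N) + c1 * (π * R v (k + 1) N)) := by ring
    rw [← h] at hint
    exact nonneg_of_mul_nonneg_right hint pi_pos
  all_goals first
    | (intro i _; exact (by fun_prop : Continuous _).intervalIntegrable _ _)
    | exact (by fun_prop : Continuous _).intervalIntegrable _ _

end Pool.Agent.MPc64be7Lib
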