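import Pool.Agent.MPc64be7Lib.Sig
set_option autoImplicit false

open Real Set

namespace Pool.Agent.MPc64be7Lib

/-- the monotone operator -/
noncomputable def Top (f : ℝ → ℝ) (k : ℕ) (u : ℕ → ℝ) (n : ℕ) : ℝ :=
  f (u 0) / 2 + ∑ i ∈ Finset.range (k - n), f (u (i + 1))

/-- Fixed points of `Top` give antiperiodic solutions. -/
noncomputable def Zs (f : ℝ → ℝ) (k : ℕ) (U : ℕ → ℝ) (n : ℕ) : ℝ :=
  if n ≤ k then U n else Zs f k U (n - 1) - f (Zs f k U (n - 1 - k))
termination_by n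
decreasing_by all_goals omega

theorem Zs_init (f : ℝ → ℝ) (k : ℕ) (U : ℕ → ℝ) (n : ℕ) (hn : n ≤ k) : Zs f k U n = U n := by
  rw [Zs, if_pos hn]

theorem Zs_rec (f : ℝ → ℝ) (k : ℕ) (U : ℕ → ℝ) (n : ℕ) :
    Zs f k U (n + k + 1) = Zs f k U (n + k) - f (Zs f k U n) := by
  rw [Zs, if_neg (by omega)]
  have e1 : n + k + 1 - 1 = n + k := by omega
  have e2 : n + k + 1 - 1 - k = n := by omega
  rw [e2, e1]

section
variable {f : ℝ → ℝ} {k : ℕ} {U : ℕ → ℝ}

theorem Zs_stage1 (h0 : U k = f (U 0) / 2)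
    (h1 : ∀ n, n < k → U n = U (n + 1) + f (U (k - n))) :
    ∀ j, j ≤ k → Zs f k U (k + 1 + j) = -U (k - j) := by
  intro j
  induction j with
  | zero =>
    intro _
    have := Zs_rec f k U 0
    rw [zero_add, Zs_init f k U k le_rfl, Zs_init f k U 0 (Nat.zero_le _)] at this
    rw [add_zero, this, Nat.sub_zero]
    linarith
  | succ j ih =>
    intro hj
    have e : k + 1 + (j + 1) = (j + 1) + k + 1 := by omega
    have e2 : (j + 1) + k = k + 1 + j := by omega
    rw [e, Zs_rec, e2, ih (by omega), Zs_init f k U (j + 1) hj]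
    have h2 := h1 (k - (j + 1)) (by omega)
    have e3 : k - (j + 1) + 1 = k - j := by omega
    have e4 : k - (k - (j + 1)) = j + 1 := by omega
    rw [e3, e4] at h2
    linarith

theorem Zs_stage2 (hodd : ∀ x, f (-x) = -f x) (h0 : U k = f (U 0) / 2)
    (h1 : ∀ n, n < k → U n = U (n + 1) + f (U (k - n))) :
    ∀ j, j ≤ k → Zs f k U (2 * k + 1 + j) = -U j := by
  intro j
  induction j with
  | zero =>
    intro _
    have := Zs_stage1 h0 h1 k le_rfl
    have e : 2 * k + 1 + 0 = k + 1 + k := by omega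
    rw [e, this, Nat.sub_self]
  | succ j ih =>
    intro hj
    have e : 2 * k + 1 + (j + 1) = (k + 1 + j) + k + 1 := by omega
    have e2 : (k + 1 + j) + k = 2 * k + 1 + j := by omega
    rw [e, Zs_rec, e2, ih (by omega), Zs_stage1 h0 h1 j (by omega), hodd]
    have h2 := h1 j (by omega)
    linarith

theorem Zs_anti (hodd : ∀ x, f (-x) = -f x) (h0 : U k = f (U 0) / 2)
    (h1 : ∀ n, n < k → U n = U (n + 1) + f (U (k - n))) (n : ℕ) :
    Zs f k U (n + (2 * k + 1)) = -Zs f k U n := by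
  have key : ∀ N, ∀ n ≤ N, Zs f k U (n + (2 * k + 1)) = -Zs f k U n := by
    intro N
    induction N with
    | zero =>
      intro n hn
      rw [add_comm, Zs_stage2 hodd h0 h1 n (by omega), Zs_init f k U n (by omega)]
    | succ N ih =>
      intro n hn
      rcases Nat.lt_or_ge k n with h2 | h2
      · obtain ⟨j, rfl⟩ : ∃ j, n = j + k + 1 := ⟨n - k - 1, by omega⟩
        have e : j + k + 1 + (2 * k + 1) = (j + (2 * k + 1)) + k + 1 := by omega
        have e2 : (j + (2 * k + 1)) + k = (j + k) + (2 * k + 1) := by omega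
        rw [e, Zs_rec, e2, ih (j + k) (by omega), ih j (by omega), hodd, Zs_rec]
        ring
      · rw [add_comm, Zs_stage2 hodd h0 h1 n h2, Zs_init f k U n h2]
  exact key n n le_rfl

theorem Zs_period (hodd : ∀ x, f (-x) = -f x) (h0 : U k = f (U 0) / 2)
    (h1 : ∀ n, n < k → U n = U (n + 1) + f (U (k - n))) (j : ℕ) :
    Zs f k U (j * (2 * (2 * k + 1))) = U 0 := by
  induction j with
  | zero => simpa using Zs_init f k U 0 (Nat.zero_le _)
  | succ j ih =>
    have e : (j + 1) * (2 * (2 * k + 1)) = j * (2 * (2 * k + 1)) + (2 * k + 1) + (2 * k + 1) := by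
      ring
    rw [e, Zs_anti hodd h0 h1, Zs_anti hodd h0 h1, ih, neg_neg]

end

/-- the linear identity behind the critical mode -/
theorem crit_mode (k n : ℕ) (hk : 1 ≤ k) (hn : n ≤ k) :
    2 * sm (2 * k + 1) * (1 / 2 + ∑ i ∈ Finset.range (k - n),
      cos (((i + 1 : ℕ) : ℝ) * (2 * (π / (2 * ((2 * k + 1 : ℕ) : ℝ))))))
      = cos ((n : ℝ) * (2 * (π / (2 * ((2 * k + 1 : ℕ) : ℝ))))) := by
  have h := dirichlet (k - n) (π / (2 * ((2 * k + 1 : ℕ) : ℝ)))
  have e : sin (π / (2 * ((2 * k + 1 : ℕ) : ℝ))) = sm (2 * k + 1) := rfl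
  rw [e] at h
  rw [h]
  have hm := m_mul_al (2 * k + 1) (by omega)
  have e2 : ((2 * (k - n) + 1 : ℕ) : ℝ) * (π / (2 * ((2 * k + 1 : ℕ) : ℝ)))
      = π / 2 - (n : ℝ) * (2 * (π / (2 * ((2 * k + 1 : ℕ) : ℝ)))) := by
    rw [← hm]
    have : ((2 * (k - n) + 1 : ℕ) : ℝ) = ((2 * k + 1 : ℕ) : ℝ) - 2 * n := by
      push_cast [Nat.cast_sub hn]; ring
    rw [this]
    ring
  rw [e2, sin_pi_div_two_sub]

section iter

variable {f : ℝ → ℝ} {k : ℕ}

/-- sub-solution -/
noncomputable def u0 (k : ℕ) (ε : ℝ) (n : ℕ) : ℝ :=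
  if n ≤ k then ε * cos ((n : ℝ) * (2 * (π / (2 * ((2 * k + 1 : ℕ) : ℝ))))) else 0

theorem cos_mode_nonneg (n : ℕ) (hn : n ≤ k) :
    0 ≤ cos ((n : ℝ) * (2 * (π / (2 * ((2 * k + 1 : ℕ) : ℝ))))) := by
  have hpi := pi_pos
  apply cos_nonneg_of_neg_pi_div_two_le_of_le
  · have : 0 ≤ (n : ℝ) * (2 * (π / (2 * ((2 * k + 1 : ℕ) : ℝ)))) := by positivity
    linarith
  · have hn' : (n : ℝ) ≤ k := by exact_mod_cast hn
    have hk0 : (0 : ℝ) ≤ k := Nat.cast_nonneg k
    have : (n : ℝ) * (2 * (π / (2 * ((2 * k + 1 : ℕ) : ℝ)))) = n * π / (2 * k + 1) := by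
      push_cast; field_simp
    rw [this, div_le_div_iff₀ (by positivity) (by norm_num)]
    nlinarith

theorem u0_zero (k : ℕ) (ε : ℝ) : u0 k ε 0 = ε := by
  unfold u0
  simp

theorem sub_sol (hk : 1 ≤ k) (hmono : Monotone f) (hf0 : f 0 = 0) (ε : ℝ) (hε : 0 < ε)
    (hlin : ∀ x, 0 ≤ x → x ≤ ε → 2 * sm (2 * k + 1) * x ≤ f x) (n : ℕ) :
    u0 k ε n ≤ Top f k (u0 k ε) n := by
  by_cases hn : n ≤ k
  · have h1 : u0 k ε n = ε * (2 * sm (2 * k + 1) * (1 / 2 + ∑ i ∈ Finset.range (k - n),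
      cos (((i + 1 : ℕ) : ℝ) * (2 * (π / (2 * ((2 * k + 1 : ℕ) : ℝ))))))) := by
      rw [crit_mode k n hk hn]
      unfold u0
      rw [if_pos hn]
    have h2 : 2 * sm (2 * k + 1) * ε ≤ f (u0 k ε 0) := by
      rw [u0_zero]
      exact hlin ε hε.le le_rfl
    have h3 : ∑ i ∈ Finset.range (k - n), 2 * sm (2 * k + 1) * u0 k ε (i + 1)
        ≤ ∑ i ∈ Finset.range (k - n), f (u0 k ε (i + 1)) := by
      apply Finset.sum_le_sum
      intro i hi
      have hi' := Finset.mem_range.mp hi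
      have hc := cos_mode_nonneg (k := k) (i + 1) (by omega)
      have hc1 := cos_le_one (((i + 1 : ℕ) : ℝ) * (2 * (π / (2 * ((2 * k + 1 : ℕ) : ℝ)))))
      apply hlin
      · unfold u0
        rw [if_pos (by omega)]
        positivity
      · unfold u0
        rw [if_pos (by omega)]
        nlinarith
    have h4 : ∑ i ∈ Finset.range (k - n), 2 * sm (2 * k + 1) * u0 k ε (i + 1)
        = ε * (2 * sm (2 * k + 1) * ∑ i ∈ Finset.range (k - n),
      cos (((i + 1 : ℕ) : ℝ) * (2 * (π / (2 * ((2 * k + 1 : ℕ) : ℝ)))))) := by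
      rw [Finset.mul_sum, Finset.mul_sum]
      apply Finset.sum_congr rfl
      intro i hi
      have hi' := Finset.mem_range.mp hi
      unfold u0
      rw [if_pos (by omega)]
      ring
    unfold Top
    rw [h1]
    rw [h4] at h3
    linarith
  · have h1 : u0 k ε n = 0 := by unfold u0; rw [if_neg hn]
    have h2 : k - n = 0 := by omega
    unfold Top
    rw [h1, h2, Finset.range_zero, Finset.sum_empty, add_zero, u0_zero]
    have := hmono hε.le
    rw [hf0] at this
    linarith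

theorem Top_mono (hmono : Monotone f) {u v : ℕ → ℝ} (h : ∀ n, u n ≤ v n) (n : ℕ) :
    Top f k u n ≤ Top f k v n := by
  unfold Top
  have h1 := hmono (h 0)
  have h2 : ∑ i ∈ Finset.range (k - n), f (u (i + 1)) ≤ ∑ i ∈ Finset.range (k - n), f (v (i + 1)) :=
    Finset.sum_le_sum fun i _ => hmono (h _)
  linarith

theorem exists_fixed (hk : 1 ≤ k) (hmono : Monotone f) (hf0 : f 0 = 0) (hcont : Continuous f)
    (B : ℝ) (hB : ∀ x, |f x| ≤ B) (ε : ℝ) (hε : 0 < ε)
    (hlin : ∀ x, 0 ≤ x → x ≤ ε → 2 * sm (2 * k + 1) * x ≤ f x) :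
    ∃ U : ℕ → ℝ, ε ≤ U 0 ∧ ∀ n, U n = Top f k U n := by
  set S : ℕ → ℕ → ℝ := fun j => (Top f k)^[j] (u0 k ε) with hS
  have hSs : ∀ j, S (j + 1) = Top f k (S j) := by
    intro j
    simp only [hS, Function.iterate_succ_apply']
  have hinc : ∀ j, ∀ n, S j n ≤ S (j + 1) n := by
    intro j
    induction j with
    | zero =>
      intro n
      rw [hSs 0]
      exact sub_sol hk hmono hf0 ε hε hlin n
    | succ j ih =>
      intro n
      rw [hSs j, hSs (j + 1)]
      exact Top_mono hmono ih n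
  have hmonoS : ∀ n, Monotone (fun j => S j n) := fun n => monotone_nat_of_le_succ fun j => hinc j n
  have hbd : ∀ n, BddAbove (range fun j => S j n) := by
    intro n
    refine ⟨max (u0 k ε n) (B / 2 + (k - n : ℕ) * B), ?_⟩
    rintro _ ⟨j, rfl⟩
    cases j with
    | zero => exact le_max_left _ _
    | succ j =>
      apply le_max_of_le_right
      simp only []
      rw [hSs j]
      unfold Top
      have h1 := (abs_le.mp (hB (S j 0))).2
      have h2 := Finset.sum_le_card_nsmul (Finset.range (k - n)) (fun i => f (S j (i + 1))) B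
        (fun i _ => (abs_le.mp (hB _)).2)
      simp only [Finset.card_range, nsmul_eq_mul] at h2
      linarith
  set U : ℕ → ℝ := fun n => ⨆ j, S j n with hU
  have hlim : ∀ n, Filter.Tendsto (fun j => S j n) Filter.atTop (nhds (U n)) := fun n =>
    tendsto_atTop_ciSup (hmonoS n) (hbd n)
  refine ⟨U, ?_, ?_⟩
  · have h1 : S 0 0 ≤ U 0 := le_ciSup (hbd 0) 0
    have h2 : S 0 0 = ε := by
      simp only [hS, Function.iterate_zero, id_eq]
      exact u0_zero k ε
    linarith
  · intro n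
    have h1 : Filter.Tendsto (fun j => S (j + 1) n) Filter.atTop (nhds (U n)) :=
      (hlim n).comp (Filter.tendsto_add_atTop_nat 1)
    have h2 : Filter.Tendsto (fun j => Top f k (S j) n) Filter.atTop (nhds (Top f k U n)) := by
      unfold Top
      apply Filter.Tendsto.add
      · exact ((hcont.tendsto _).comp (hlim 0)).div_const 2
      · apply tendsto_finsetSum
        intro i _
        exact (hcont.tendsto _).comp (hlim (i + 1))
    have h3 : (fun j => S (j + 1) n) = fun j => Top f k (S j) n := by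
      funext j
      rw [hSs j]
    rw [h3] at h1
    exact tendsto_nhds_unique h1 h2

theorem fixed_props {U : ℕ → ℝ} (hU : ∀ n, U n = Top f k U n) :
    U k = f (U 0) / 2 ∧ ∀ n, n < k → U n = U (n + 1) + f (U (k - n)) := by
  constructor
  · rw [hU k]
    unfold Top
    simp
  · intro n hn
    rw [hU n, hU (n + 1)]
    unfold Top
    have e : k - n = (k - (n + 1)) + 1 := by omega
    rw [e, Finset.sum_range_succ]
    have e2 : k - (n + 1) + 1 = k - n := by omega
    ring

end iter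

/-- small-signal lower bound of `fs` -/
theorem fs_lin (β : ℝ) (hβ : 0 < β) (s : ℝ) (hs : s < β / 2) :
    ∃ ε > 0, ∀ x, 0 ≤ x → x ≤ ε → s * x ≤ fs β x := by
  have h := nl_fs β hβ
  have hd : HasDerivAt (fs β) (β / 2) 0 := by
    have := h.hf 0
    have e : fs' β 0 = β / 2 := by
      unfold fs'
      rw [sigmoid_zero]
      ring
    rwa [e] at this
  rw [hasDerivAt_iff_tendsto_slope] at hd
  have hev := hd.eventually (lt_mem_nhds hs)
  rw [eventually_nhdsWithin_iff] at hev
  rw [Metric.eventually_nhds_iff] at hev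
  obtain ⟨ε, hε, hball⟩ := hev
  refine ⟨ε / 2, by positivity, fun x hx0 hx1 => ?_⟩
  rcases eq_or_lt_of_le hx0 with h0 | h0
  · rw [← h0, h.f_zero]; simp
  · have h1 := hball (y := x) (by rw [Real.dist_eq, sub_zero, abs_of_pos h0]; linarith) (by
      simp only [mem_compl_iff, mem_singleton_iff]; exact h0.ne')
    rw [slope_def_field, h.f_zero, sub_zero, sub_zero, lt_div_iff₀ h0] at h1
    exact h1.le

end Pool.Agent.MPc64be7Lib
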