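import Pool.Agent.MPc64be7Lib.Stab
set_option autoImplicit false

open Real Set

namespace Pool.Agent.MPc64be7Lib

/-- the nonlinearity `β (2 σ(x) - 1) = β tanh (x/2)` -/
noncomputable def fs (β x : ℝ) : ℝ := β * (2 * sigmoid x - 1)

/-- its even primitive -/
noncomputable def Fs (β x : ℝ) : ℝ := β * (log (1 + exp x) + log (1 + exp (-x)) - 2 * log 2)

/-- its derivative -/
noncomputable def fs' (β x : ℝ) : ℝ := β * (2 * (sigmoid x * (1 - sigmoid x)))

theorem hasDerivAt_fs (β x : ℝ) : HasDerivAt (fs β) (fs' β x) x := by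
  have h1 := (((hasDerivAt_sigmoid x).const_mul 2).sub_const 1).const_mul β
  exact h1

theorem hasDerivAt_Fs (β x : ℝ) : HasDerivAt (Fs β) (fs β x) x := by
  have e1 : HasDerivAt (fun x : ℝ => log (1 + exp x)) (exp x / (1 + exp x)) x :=
    ((Real.hasDerivAt_exp x).const_add 1).log (by positivity)
  have e0 : HasDerivAt (fun x : ℝ => exp (-x)) (-exp (-x)) x := by
    have := (hasDerivAt_neg x).exp
    simpa using this
  have e2 : HasDerivAt (fun x : ℝ => log (1 + exp (-x))) (-exp (-x) / (1 + exp (-x))) x :=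
    (e0.const_add 1).log (by positivity)
  have h := ((e1.fun_add e2).sub_const (2 * log 2)).const_mul β
  have h2 : HasDerivAt (Fs β) _ x := h
  convert h2 using 1
  unfold fs
  rw [sigmoid_def]
  have hx : exp (-x) = (exp x)⁻¹ := Real.exp_neg x
  rw [hx]
  have := exp_pos x
  field_simp
  ring

theorem sig_quarter (x : ℝ) : sigmoid x * (1 - sigmoid x) ≤ 1 / 4 := by
  nlinarith [sq_nonneg (sigmoid x - 1 / 2)]

theorem nl_fs (β : ℝ) (hβ : 0 < β) : NL (β / 2) β (fs β) (Fs β) (fs' β) where
  ha := by positivity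
  hB := hβ.le
  hf := hasDerivAt_fs β
  hF := hasDerivAt_Fs β
  h0 := fun x => by
    unfold fs'
    have h1 := sigmoid_pos x
    have h2 := sigmoid_lt_one x
    have : 0 ≤ 1 - sigmoid x := by linarith
    positivity
  h1 := fun x => by
    unfold fs'
    have := sig_quarter x
    nlinarith
  odd := fun x => by
    unfold fs
    rw [sigmoid_neg]
    ring
  even := fun x => by
    unfold Fs
    rw [neg_neg]
    ring
  F0 := by
    unfold Fs
    simp only [neg_zero, exp_zero]
    norm_num
    right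
    ring
  bd := fun x => by
    unfold fs
    rw [abs_mul, abs_of_pos hβ]
    have h1 := sigmoid_pos x
    have h2 := sigmoid_lt_one x
    have h3 : |2 * sigmoid x - 1| ≤ 1 := by
      rw [abs_le]
      constructor <;> linarith
    nlinarith

theorem w_fs_strictMono (β : ℝ) (hβ : 0 < β) : StrictMonoOn (w (β / 2) (fs β)) (Ici 0) := by
  have h := nl_fs β hβ
  apply strictMonoOn_of_deriv_pos (convex_Ici 0)
  · intro x _
    exact (h.hasDerivAt_w x).continuousAt.continuousWithinAt
  · intro x hx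
    rw [interior_Ici] at hx
    rw [(h.hasDerivAt_w x).deriv]
    have hs : 1 / 2 < sigmoid x := by
      have := sigmoid_strictMono (show (0 : ℝ) < x from hx)
      rw [sigmoid_zero] at this
      linarith
    have e : 1 - fs' β x / (β / 2) = (2 * sigmoid x - 1) ^ 2 := by
      unfold fs'
      field_simp
      ring
    rw [e]
    have : 0 < 2 * sigmoid x - 1 := by linarith
    positivity

theorem fs_pos (β : ℝ) (hβ : 0 < β) {x : ℝ} (hx : 0 < x) : 0 < fs β x := by
  unfold fs
  have := sigmoid_strictMono hx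
  rw [sigmoid_zero] at this
  have : 0 < 2 * sigmoid x - 1 := by linarith
  positivity

theorem hpos_fs (β : ℝ) (hβ : 0 < β) :
    ∀ ε > 0, ∃ c > 0, ∀ x, ε ≤ |x| → c ≤ fs β x * w (β / 2) (fs β) x := by
  intro ε hε
  have h := nl_fs β hβ
  have hw0 : w (β / 2) (fs β) 0 = 0 := by
    unfold w; rw [h.f_zero]; simp
  have hwε : 0 < w (β / 2) (fs β) ε := by
    have := w_fs_strictMono β hβ (mem_Ici.mpr (le_refl (0:ℝ))) (show ε ∈ Ici 0 from hε.le) hε
    rwa [hw0] at this
  have hfε := fs_pos β hβ hε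
  refine ⟨fs β ε * w (β / 2) (fs β) ε, by positivity, ?_⟩
  have key : ∀ x, ε ≤ x → fs β ε * w (β / 2) (fs β) ε ≤ fs β x * w (β / 2) (fs β) x := by
    intro x hx
    have h1 := h.mono hx
    have h2 := h.w_mono hx
    have h3 : 0 ≤ fs β x := hfε.le.trans h1
    exact mul_le_mul h1 h2 hwε.le h3
  intro x hx
  rcases le_total 0 x with h0 | h0
  · rw [abs_of_nonneg h0] at hx
    exact key x hx
  · rw [abs_of_nonpos h0] at hx
    have := key (-x) hx
    rw [h.odd x, h.w_odd x] at this
    linarith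

/-- conversion of the recursions -/
theorem sig_step (β z v : ℝ) (u : ℝ) (hv : v = fs β u) :
    sigmoid (z - v) = sigmoid z * exp (β * (1 - 2 * sigmoid u)) /
      (1 - sigmoid z + sigmoid z * exp (β * (1 - 2 * sigmoid u))) := by
  have e1 : β * (1 - 2 * sigmoid u) = -v := by rw [hv]; unfold fs; ring
  rw [e1, sigmoid_def, sigmoid_def]
  have e2 : -(z - v) = -z + v := by ring
  rw [e2, exp_add, exp_neg v]
  have hp := exp_pos (-z)
  have hq := exp_pos v
  set p := exp (-z)
  set q := exp v
  have hden : 1 - (1 + p)⁻¹ + (1 + p)⁻¹ * q⁻¹ = (1 + p * q) / ((1 + p) * q) := by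
    field_simp
    ring
  rw [hden]
  field_simp

/-- logit -/
noncomputable def lg (y : ℝ) : ℝ := -log (y⁻¹ - 1)

theorem sig_lg {y : ℝ} (h0 : 0 < y) (h1 : y < 1) : sigmoid (lg y) = y := by
  unfold lg
  rw [sigmoid_def, neg_neg, exp_log]
  · simp
  · have : 1 < y⁻¹ := (one_lt_inv₀ h0).mpr h1
    linarith

theorem lg_half : lg (1 / 2) = 0 := by
  unfold lg
  norm_num

theorem lg_cont : ContinuousAt lg (1 / 2) := by
  unfold lg
  apply ContinuousAt.neg
  apply ContinuousAt.log
  · apply ContinuousAt.sub _ continuousAt_const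
    exact continuousAt_inv₀ (by norm_num)
  · norm_num

theorem range_y {β : ℝ} {k : ℕ} {y : ℕ → ℝ} (hi : ∀ i, i ≤ k → 0 < y i ∧ y i < 1)
    (hy : ∀ n : ℕ, y (n + k + 1) = y (n + k) * exp (β * (1 - 2 * y n)) /
                  (1 - y (n + k) + y (n + k) * exp (β * (1 - 2 * y n)))) (n : ℕ) :
    0 < y n ∧ y n < 1 := by
  have key : ∀ N, ∀ n ≤ N, 0 < y n ∧ y n < 1 := by
    intro N
    induction N with
    | zero => intro n hn; exact hi n (by omega)
    | succ N ih =>
      intro n hn
      rcases Nat.lt_or_ge n (N + 1) with h | h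
      · exact ih n (by omega)
      · rcases Nat.lt_or_ge k n with h2 | h2
        · obtain ⟨j, rfl⟩ : ∃ j, n = j + k + 1 := ⟨n - k - 1, by omega⟩
          rw [hy j]
          obtain ⟨a1, a2⟩ := ih (j + k) (by omega)
          have hE := exp_pos (β * (1 - 2 * y j))
          have hden : 0 < 1 - y (j + k) + y (j + k) * exp (β * (1 - 2 * y j)) := by
            have : 0 < y (j + k) * exp (β * (1 - 2 * y j)) := by positivity
            linarith
          constructor
          · positivity
          · rw [div_lt_one hden]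
            linarith
        · exact hi n h2
  exact key n n le_rfl

theorem z_of_y {β : ℝ} {k : ℕ} {y : ℕ → ℝ} (hi : ∀ i, i ≤ k → 0 < y i ∧ y i < 1)
    (hy : ∀ n : ℕ, y (n + k + 1) = y (n + k) * exp (β * (1 - 2 * y n)) /
                  (1 - y (n + k) + y (n + k) * exp (β * (1 - 2 * y n)))) (n : ℕ) :
    lg (y (n + k + 1)) = lg (y (n + k)) - fs β (lg (y n)) := by
  apply sigmoid_injective
  obtain ⟨a1, a2⟩ := range_y hi hy (n + k + 1)
  obtain ⟨b1, b2⟩ := range_y hi hy (n + k)
  obtain ⟨c1, c2⟩ := range_y hi hy n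
  rw [sig_step β _ _ (lg (y n)) rfl, sig_lg a1 a2, sig_lg b1 b2, sig_lg c1 c2, hy n]

end Pool.Agent.MPc64be7Lib
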