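import Pool.Agent.MPc64be7Lib.Dyn2
set_option autoImplicit false

open Real Set

namespace Pool.Agent.MPc64be7Lib

variable {a B : ℝ} {f F f' : ℝ → ℝ} {k : ℕ} {z : ℕ → ℝ}

theorem term_le_I0 (h : NL a B f F f') (hk : 2 ≤ k) (ha2 : a ≤ 2 * sm (2 * k + 1))
    (hpos : ∀ ε > 0, ∃ c > 0, ∀ x, ε ≤ |x| → c ≤ f x * w a f x)
    (hz : ∀ n, z (n + k + 1) = z (n + k) - f (z n)) (j : ℕ) :
    (1 - et (2 * k + 1)) * (f (z (k + j)) * w a f (z (k + j))) ≤ I0 a f k z := by
  have hη : 0 < et (2 * k + 1) := et_pos _ (by omega)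
  have hη2 := et_lt_one hk
  have ha := h.ha
  have hzt := tendsto_zero h hk ha2 hpos hz
  have hft : Filter.Tendsto (fun n => f (z n)) Filter.atTop (nhds 0) := by
    have hc : Filter.Tendsto f (nhds 0) (nhds 0) := by
      have := (h.hf 0).continuousAt.tendsto
      rwa [h.f_zero] at this
    exact hc.comp hzt
  have hfw := tendsto_fw h hk ha2 hz
  apply le_of_forall_pos_le_add
  intro ρ0 hρ0
  set K := et (2 * k + 1) / (2 * a) * (2 * k + 1) + et (2 * k + 1) / 2 * (2 * k + 1) with hK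
  have hKpos : 0 < K := by positivity
  set ρ := min 1 (ρ0 / K) with hρ
  have hρpos : 0 < ρ := lt_min one_pos (by positivity)
  have hρ1 : ρ ≤ 1 := min_le_left _ _
  have hρK : K * ρ ≤ ρ0 := by
    have h1 : ρ ≤ ρ0 / K := min_le_right _ _
    calc K * ρ ≤ K * (ρ0 / K) := by gcongr
      _ = ρ0 := by field_simp
  rw [Metric.tendsto_atTop] at hft hfw
  obtain ⟨N1, hN1⟩ := hft ρ hρpos
  obtain ⟨N2, hN2⟩ := hfw ρ hρpos
  set J := j + 1 + N1 + N2 with hJ
  have hv : ∀ n, k + J ≤ n + (k + 1) → |f (z n)| ≤ ρ := by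
    intro n hn
    have := hN1 n (by omega)
    rw [Real.dist_eq, sub_zero] at this
    exact this.le
  have hpot : ∀ i, Pi' a f F (z (k + J + i)) ≤ ρ := by
    intro i
    have h1 := hN2 (k + J + i) (by omega)
    rw [Real.dist_eq, sub_zero] at h1
    have h2 := h.pot_le (z (k + J + i))
    have h3 := le_abs_self (f (z (k + J + i)) * w a f (z (k + J + i)))
    linarith
  have hs1 : ∑ i ∈ Finset.range k, Pi' a f F (z (k + J + i)) ≤ k * ρ := by
    have := Finset.sum_le_card_nsmul (Finset.range k) (fun i => Pi' a f F (z (k + J + i)))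
      ρ (fun i _ => hpot i)
    simpa using this
  have hs2 : ∑ i ∈ Finset.range (k + 1), Pi' a f F (z (k + J + i)) ≤ (k + 1) * ρ := by
    have := Finset.sum_le_card_nsmul (Finset.range (k + 1)) (fun i => Pi' a f F (z (k + J + i)))
      ρ (fun i _ => hpot i)
    simpa using this
  have hmain := main_ineq h hk ha2 hz J ρ hρpos.le hv
  have hterm : f (z (k + j)) * w a f (z (k + j))
      ≤ ∑ j ∈ Finset.range J, f (z (k + j)) * w a f (z (k + j)) := by
    apply Finset.single_le_sum (f := fun j => f (z (k + j)) * w a f (z (k + j)))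
      (fun i _ => h.fw_nonneg _)
    exact Finset.mem_range.mpr (by omega)
  have hterm2 : (1 - et (2 * k + 1)) * (f (z (k + j)) * w a f (z (k + j)))
      ≤ (1 - et (2 * k + 1)) * ∑ j ∈ Finset.range J, f (z (k + j)) * w a f (z (k + j)) :=
    mul_le_mul_of_nonneg_left hterm (by linarith)
  have h5 : 0 ≤ (1 + et (2 * k + 1)) / 2 * z (k + J + k) ^ 2 := by positivity
  have h6 : et (2 * k + 1) / (2 * a) * ((2 * k + 1) * ρ ^ 2)
      ≤ et (2 * k + 1) / (2 * a) * ((2 * k + 1) * ρ) := by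
    gcongr
    nlinarith
  have h7 : et (2 * k + 1) / 2 * (∑ i ∈ Finset.range k, Pi' a f F (z (k + J + i))
          + ∑ i ∈ Finset.range (k + 1), Pi' a f F (z (k + J + i)))
      ≤ et (2 * k + 1) / 2 * (k * ρ + (k + 1) * ρ) := by
    gcongr
  have h8 : et (2 * k + 1) / (2 * a) * ((2 * k + 1) * ρ) + et (2 * k + 1) / 2 * (k * ρ + (k + 1) * ρ)
      = K * ρ := by
    rw [hK]; ring
  linarith

theorem I0_le (h : NL a B f F f') (hk : 2 ≤ k) (M : ℝ) (hM : 0 ≤ M)
    (hzM : ∀ n, n ≤ 2 * k → |z n| ≤ M) :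
    I0 a f k z ≤ (1 + k * (|1 / a - 1 / 2| * a ^ 2 + k * a ^ 2 + a)) * M ^ 2 := by
  have hη : 0 < et (2 * k + 1) := et_pos _ (by omega)
  have hη2 := et_lt_one hk
  have ha := h.ha
  have hv : ∀ n, n ≤ 2 * k → |f (z n)| ≤ a * M := by
    intro n hn
    have h1 := h.abs_le_mul (z n)
    have h2 := hzM n hn
    calc |f (z n)| ≤ a * |z n| := h1
      _ ≤ a * M := by gcongr
  have hvv : ∀ n n', n ≤ 2 * k → n' ≤ 2 * k → |f (z n) * f (z n')| ≤ a ^ 2 * M ^ 2 := by
    intro n n' hn hn'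
    rw [abs_mul]
    calc |f (z n)| * |f (z n')| ≤ (a * M) * (a * M) := by
          gcongr
          · exact hv n hn
          · exact hv n' hn'
      _ = a ^ 2 * M ^ 2 := by ring
  have hq : ∀ n ∈ Finset.range k, qn a (et (2 * k + 1)) k (fun n => f (z n)) n
      ≤ (|1 / a - 1 / 2| * a ^ 2 + k * a ^ 2 + a) * M ^ 2 := by
    intro n hn
    have hn' := Finset.mem_range.mp hn
    unfold qn
    have h1 : (1 / a - 1 / 2) * f (z n) ^ 2 ≤ |1 / a - 1 / 2| * (a ^ 2 * M ^ 2) := by
      calc (1 / a - 1 / 2) * f (z n) ^ 2 ≤ |1 / a - 1 / 2| * f (z n) ^ 2 := by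
            gcongr; exact le_abs_self _
        _ ≤ |1 / a - 1 / 2| * (a ^ 2 * M ^ 2) := by
            gcongr
            have := hvv n n (by omega) (by omega)
            rw [abs_mul, ← sq, sq_abs] at this
            exact this
    have h2 : -(∑ l ∈ Finset.range k, (if l + 1 ≤ n then f (z n) * f (z (n - (l + 1))) else 0))
        ≤ k * (a ^ 2 * M ^ 2) := by
      rw [← Finset.sum_neg_distrib]
      have := Finset.sum_le_card_nsmul (Finset.range k)
        (fun l => -(if l + 1 ≤ n then f (z n) * f (z (n - (l + 1))) else 0)) (a ^ 2 * M ^ 2) (by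
          intro l _
          try simp only []
          split_ifs with hl
          · have := hvv n (n - (l + 1)) (by omega) (by omega)
            have := (abs_le.mp this).1
            linarith
          · have : 0 ≤ a ^ 2 * M ^ 2 := by positivity
            linarith)
      simpa using this
    have h3 : et (2 * k + 1) / (2 * a) * (f (z n) * f (z (n + k)) + f (z n) * f (z (n + (k + 1))))
        ≤ a * M ^ 2 := by
      have e1 := (abs_le.mp (hvv n (n + k) (by omega) (by omega))).2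
      have e2 := (abs_le.mp (hvv n (n + (k + 1)) (by omega) (by omega))).2
      calc et (2 * k + 1) / (2 * a) * (f (z n) * f (z (n + k)) + f (z n) * f (z (n + (k + 1))))
          ≤ et (2 * k + 1) / (2 * a) * (a ^ 2 * M ^ 2 + a ^ 2 * M ^ 2) := by gcongr
        _ = et (2 * k + 1) * (a * M ^ 2) := by field_simp; ring
        _ ≤ 1 * (a * M ^ 2) := by gcongr; linarith
        _ = a * M ^ 2 := one_mul _
    try simp only []
    nlinarith
  have hsum := Finset.sum_le_card_nsmul (Finset.range k) _ _ hq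
  simp only [Finset.card_range, nsmul_eq_mul] at hsum
  unfold I0
  have hz2 : z (k + k) ^ 2 ≤ M ^ 2 := by
    have := hzM (k + k) (by omega)
    rw [← sq_abs]
    gcongr
  have h5 : (1 + et (2 * k + 1)) / 2 * z (k + k) ^ 2 ≤ 1 * M ^ 2 := by
    apply mul_le_mul _ hz2 (sq_nonneg _) (by norm_num)
    linarith
  nlinarith

theorem growth (h : NL a B f F f') (hz : ∀ n, z (n + k + 1) = z (n + k) - f (z n))
    (d : ℝ) (hd : 0 ≤ d) (hi : ∀ n, n ≤ k → |z n| ≤ d) :
    ∀ j, ∀ n, n ≤ k + j → |z n| ≤ (1 + a) ^ j * d := by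
  have ha := h.ha
  intro j
  induction j with
  | zero => simpa using hi
  | succ j ih =>
    intro n hn
    have hmono : (1 + a) ^ j * d ≤ (1 + a) ^ (j + 1) * d := by
      gcongr
      · linarith
      · omega
    rcases Nat.lt_or_ge n (k + j + 1) with h1 | h1
    · exact (ih n (by omega)).trans hmono
    · have hn' : n = j + k + 1 := by omega
      rw [hn', hz j]
      have h2 := ih (j + k) (by omega)
      have h3 := ih j (by omega)
      have h4 := h.abs_le_mul (z j)
      have h5 := abs_sub (z (j + k)) (f (z j))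
      calc |z (j + k) - f (z j)| ≤ |z (j + k)| + |f (z j)| := h5
        _ ≤ (1 + a) ^ j * d + a * ((1 + a) ^ j * d) := by
          gcongr
          exact h4.trans (by gcongr)
        _ = (1 + a) ^ (j + 1) * d := by ring

theorem stable (h : NL a B f F f') (hk : 2 ≤ k) (ha2 : a ≤ 2 * sm (2 * k + 1))
    (hpos : ∀ ε > 0, ∃ c > 0, ∀ x, ε ≤ |x| → c ≤ f x * w a f x) (ε : ℝ) (hε : 0 < ε) :
    ∃ δ > 0, ∀ z : ℕ → ℝ, (∀ n, z (n + k + 1) = z (n + k) - f (z n)) →
      (∀ n, n ≤ k → |z n| ≤ δ) → ∀ n, |z n| < ε := by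
  have hη : 0 < et (2 * k + 1) := et_pos _ (by omega)
  have hη2 := et_lt_one hk
  have ha := h.ha
  obtain ⟨c, hc, hcx⟩ := hpos ε hε
  set Q := (1 + k * (|1 / a - 1 / 2| * a ^ 2 + k * a ^ 2 + a)) with hQ
  have hQpos : 0 < Q := by
    have := abs_nonneg (1 / a - 1 / 2)
    positivity
  -- choose δ
  have hcont : Filter.Tendsto (fun d : ℝ => Q * ((1 + a) ^ k * d) ^ 2) (nhdsWithin 0 (Ioi 0)) (nhds 0) := by
    have : Continuous (fun d : ℝ => Q * ((1 + a) ^ k * d) ^ 2) := by fun_prop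
    have h1 := this.tendsto 0
    simp only [mul_zero, ne_eq, OfNat.ofNat_ne_zero, not_false_eq_true, zero_pow] at h1
    exact h1.mono_left nhdsWithin_le_nhds
  have hev := hcont.eventually (gt_mem_nhds (show (0 : ℝ) < c / 3 by positivity))
  have hev2 : ∀ᶠ d in nhdsWithin (0 : ℝ) (Ioi 0), d < ε :=
    nhdsWithin_le_nhds (gt_mem_nhds hε)
  obtain ⟨δ, ⟨hδ1, hδ2⟩, hδ0⟩ := ((hev.and hev2).and self_mem_nhdsWithin).exists
  refine ⟨δ, hδ0, fun z hz hi n => ?_⟩
  have hδ0' : (0 : ℝ) < δ := hδ0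
  rcases Nat.lt_or_ge n k with hn | hn
  · exact (hi n hn.le).trans_lt hδ2
  · by_contra hcon
    push Not at hcon
    have h1 := term_le_I0 h hk ha2 hpos hz (n - k)
    have e : k + (n - k) = n := by omega
    rw [e] at h1
    have h2 := hcx (z n) hcon
    have h3 := growth h hz δ hδ0'.le hi k
    have h4 := I0_le (z := z) h hk ((1 + a) ^ k * δ) (by positivity)
      (fun n hn => h3 n (by omega))
    rw [← hQ] at h4
    have h5 : (1 - et (2 * k + 1)) * c ≤ (1 - et (2 * k + 1)) * (f (z n) * w a f (z n)) :=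
      mul_le_mul_of_nonneg_left h2 (by linarith)
    have h6 : c / 3 ≤ (1 - et (2 * k + 1)) * c := by nlinarith
    linarith

end Pool.Agent.MPc64be7Lib
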