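import Mathlib
set_option autoImplicit false

open Real Set

namespace Pool.Agent.MPc64be7Lib

/-- `|sin (n x)| ≤ n |sin x|`. -/
theorem abs_sin_nat_mul_le (n : ℕ) (x : ℝ) : |sin (n * x)| ≤ n * |sin x| := by
  induction n with
  | zero => simp
  | succ n ih =>
    have h1 : sin ((n + 1 : ℕ) * x) = sin (n * x) * cos x + cos (n * x) * sin x := by
      rw [← sin_add]; push_cast; ring_nf
    rw [h1]
    calc |sin (n * x) * cos x + cos (n * x) * sin x|
        ≤ |sin (n * x) * cos x| + |cos (n * x) * sin x| := abs_add_le _ _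
      _ = |sin (n * x)| * |cos x| + |cos (n * x)| * |sin x| := by rw [abs_mul, abs_mul]
      _ ≤ |sin (n * x)| * 1 + 1 * |sin x| := by
        gcongr
        · exact abs_cos_le_one x
        · exact abs_cos_le_one _
      _ ≤ ((n + 1 : ℕ) : ℝ) * |sin x| := by push_cast; linarith

section

variable (m : ℕ) (s : ℝ)

/-- auxiliary function `K` -/
noncomputable def K (t : ℝ) : ℝ :=
  s ^ 2 * m * sin t * cos (m * t) - (s ^ 2 - sin t ^ 2) * cos t * sin (m * t)

/-- auxiliary function `q` -/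
noncomputable def q (t : ℝ) : ℝ :=
  m * (sin t * cos t) * (cos (m * t) / sin (m * t)) - (s ^ 2 * (m ^ 2 - 1) - 2 + 3 * sin t ^ 2)

theorem hasDerivAt_mmul (t : ℝ) : HasDerivAt (fun t : ℝ => (m : ℝ) * t) m t := by
  simpa using (hasDerivAt_id t).const_mul (m : ℝ)

theorem hasDerivAt_sinm (t : ℝ) : HasDerivAt (fun t : ℝ => sin (m * t)) (cos (m * t) * m) t :=
  (hasDerivAt_mmul m t).sin

theorem hasDerivAt_cosm (t : ℝ) : HasDerivAt (fun t : ℝ => cos (m * t)) (-sin (m * t) * m) t :=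
  (hasDerivAt_mmul m t).cos

theorem hasDerivAt_K (t : ℝ) (h : sin (m * t) ≠ 0) :
    HasDerivAt (K m s) (sin t * sin (m * t) * q m s t) t := by
  have h1 := hasDerivAt_sinm m t
  have h2 := hasDerivAt_cosm m t
  have h3 := ((hasDerivAt_sin t).const_mul (s ^ 2 * m)).fun_mul h2
  have h4 := ((((hasDerivAt_sin t).fun_pow 2).const_sub (s ^ 2)).fun_mul (hasDerivAt_cos t)).fun_mul h1
  have h5 := h3.fun_sub h4
  have h6 : HasDerivAt (K m s) _ t := h5
  convert h6 using 1
  unfold q
  have hc : cos t ^ 2 = 1 - sin t ^ 2 := by rw [cos_sq']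
  field_simp
  ring_nf
  rw [hc]
  ring

theorem hasDerivAt_q (t : ℝ) (h : sin (m * t) ≠ 0) :
    HasDerivAt (q m s) (m / (2 * sin (m * t) ^ 2) * (cos (2 * t) * sin (2 * (m * t)) - m * sin (2 * t))
      - 3 * sin (2 * t)) t := by
  have h1 := hasDerivAt_sinm m t
  have h2 := hasDerivAt_cosm m t
  have h3 := ((hasDerivAt_sin t).fun_mul (hasDerivAt_cos t)).const_mul (m : ℝ)
  have h4 := h3.fun_mul (h2.fun_div h1 h)
  have h5 := (((hasDerivAt_sin t).fun_pow 2).const_mul 3).const_add (s ^ 2 * (m ^ 2 - 1) - 2)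
  have h6 : HasDerivAt (q m s) _ t := h4.fun_sub h5
  convert h6 using 1
  have hc : cos t ^ 2 = 1 - sin t ^ 2 := by rw [cos_sq']
  have hc2 : cos (m * t) ^ 2 = 1 - sin (m * t) ^ 2 := by rw [cos_sq']
  rw [sin_two_mul, sin_two_mul, cos_two_mul]
  field_simp
  ring_nf
  simp only [hc, hc2]
  ring

theorem sinm_pos {t : ℝ} (hm : 0 < m) (h0 : 0 < t) (h1 : t < π / m) : 0 < sin (m * t) := by
  have hm' : (0 : ℝ) < m := by exact_mod_cast hm
  apply sin_pos_of_pos_of_lt_pi
  · positivity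
  · rw [lt_div_iff₀ hm'] at h1
    linarith

theorem q_antitoneOn (hm : 2 ≤ m) : AntitoneOn (q m s) (Ioo 0 (π / m)) := by
  have hm' : (2 : ℝ) ≤ m := by exact_mod_cast hm
  have hne : ∀ t ∈ Ioo (0 : ℝ) (π / m), sin (m * t) ≠ 0 := fun t ht =>
    (sinm_pos m (by omega) ht.1 ht.2).ne'
  apply antitoneOn_of_deriv_nonpos (convex_Ioo _ _)
  · intro t ht
    exact (hasDerivAt_q m s t (hne t ht)).continuousAt.continuousWithinAt
  · intro t ht
    rw [interior_Ioo] at ht
    exact (hasDerivAt_q m s t (hne t ht)).differentiableAt.differentiableWithinAt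
  · intro t ht
    rw [interior_Ioo] at ht
    rw [(hasDerivAt_q m s t (hne t ht)).deriv]
    have hsm := sinm_pos m (by omega) ht.1 ht.2
    have ht2 : 2 * t < π := by
      have h := ht.2
      rw [lt_div_iff₀ (by linarith)] at h
      nlinarith [ht.1]
    have hs2 : 0 < sin (2 * t) := sin_pos_of_pos_of_lt_pi (by linarith [ht.1]) ht2
    have h3 : cos (2 * t) * sin (2 * (m * t)) ≤ m * sin (2 * t) := by
      have h4 := abs_sin_nat_mul_le m (2 * t)
      rw [abs_of_pos hs2] at h4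
      have h5 : |cos (2 * t)| ≤ 1 := abs_cos_le_one _
      have h6 : (m : ℝ) * (2 * t) = 2 * (m * t) := by ring
      rw [h6] at h4
      calc cos (2 * t) * sin (2 * (m * t)) ≤ |cos (2 * t) * sin (2 * (m * t))| := le_abs_self _
        _ = |cos (2 * t)| * |sin (2 * (m * t))| := abs_mul _ _
        _ ≤ 1 * |sin (2 * (m * t))| := by gcongr
        _ ≤ m * sin (2 * t) := by linarith
    have h7 : (m : ℝ) / (2 * sin (m * t) ^ 2) * (cos (2 * t) * sin (2 * (m * t)) - m * sin (2 * t)) ≤ 0 := by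
      apply mul_nonpos_of_nonneg_of_nonpos
      · positivity
      · linarith
    linarith

end

section main

variable (m : ℕ) (hm : 3 ≤ m)

/-- `s = sin (π / (2 m))` -/
noncomputable def sm : ℝ := sin (π / (2 * m))

/-- `η = 1 / (m s)` -/
noncomputable def et : ℝ := 1 / (m * sm m)

include hm

theorem al_pos : 0 < π / (2 * (m : ℝ)) := by
  have : (3 : ℝ) ≤ m := by exact_mod_cast hm
  have := pi_pos
  positivity

theorem al_lt : π / (2 * (m : ℝ)) < π / m := by
  have : (3 : ℝ) ≤ m := by exact_mod_cast hm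
  have := pi_pos
  rw [div_lt_div_iff₀ (by positivity) (by positivity)]
  nlinarith

theorem al_le : π / (2 * (m : ℝ)) ≤ π / 6 := by
  have : (3 : ℝ) ≤ m := by exact_mod_cast hm
  have := pi_pos
  rw [div_le_div_iff₀ (by positivity) (by positivity)]
  nlinarith

theorem sm_pos : 0 < sm m := by
  have h1 := al_pos m hm
  have h2 := al_le m hm
  have := pi_pos
  exact sin_pos_of_pos_of_lt_pi h1 (by linarith)

theorem m_mul_al : (m : ℝ) * (π / (2 * m)) = π / 2 := by
  have : (3 : ℝ) ≤ m := by exact_mod_cast hm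
  field_simp

theorem K_al : K m (sm m) (π / (2 * m)) = 0 := by
  unfold K
  rw [m_mul_al m hm, cos_pi_div_two]
  unfold sm
  ring

theorem K_zero : K m (sm m) 0 = 0 := by
  unfold K
  simp

theorem K_deriv_exists {x y : ℝ} (hx : 0 ≤ x) (hxy : x < y) (hy : y < π / m) :
    ∃ c ∈ Ioo x y, sin c * sin (m * c) * q m (sm m) c = (K m (sm m) y - K m (sm m) x) / (y - x) := by
  have hcont : Continuous (K m (sm m)) := by unfold K; fun_prop
  apply exists_hasDerivAt_eq_slope (K m (sm m)) _ hxy hcont.continuousOn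
  intro c hc
  exact hasDerivAt_K m (sm m) c (sinm_pos m (by omega) (by linarith [hc.1]) (by linarith [hc.2])).ne'

theorem ss_pos {c : ℝ} (h0 : 0 < c) (h1 : c < π / m) : 0 < sin c * sin (m * c) := by
  have h3 : (3 : ℝ) ≤ m := by exact_mod_cast hm
  have := sinm_pos m (by omega) h0 h1
  have hc : c < π := by
    rw [lt_div_iff₀ (by linarith)] at h1
    nlinarith [pi_pos]
  have := sin_pos_of_pos_of_lt_pi h0 hc
  positivity

theorem K_nonneg {t : ℝ} (h0 : 0 < t) (h1 : t < π / (2 * m)) : 0 ≤ K m (sm m) t := by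
  by_contra hneg
  push Not at hneg
  have hal := al_lt m hm
  obtain ⟨c1, hc1, e1⟩ := K_deriv_exists m hm le_rfl h0 (h1.trans hal)
  obtain ⟨c2, hc2, e2⟩ := K_deriv_exists m hm h0.le h1 hal
  rw [K_zero m hm] at e1
  rw [K_al m hm] at e2
  have p1 := ss_pos m hm hc1.1 (hc1.2.trans (h1.trans hal))
  have p2 := ss_pos m hm (h0.trans hc2.1) (hc2.2.trans hal)
  have r1 : (K m (sm m) t - 0) / (t - 0) < 0 := div_neg_of_neg_of_pos (by linarith) (by linarith)
  have r2 : 0 < (0 - K m (sm m) t) / (π / (2 * m) - t) := div_pos (by linarith) (by linarith)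
  rw [← e1] at r1
  rw [← e2] at r2
  have q1 : q m (sm m) c1 < 0 := by
    by_contra h; push Not at h
    have := mul_nonneg p1.le h
    linarith
  have q2 : 0 < q m (sm m) c2 := by
    by_contra h; push Not at h
    have := mul_nonpos_of_nonneg_of_nonpos p2.le h
    linarith
  have hanti := q_antitoneOn m (sm m) (by omega) (a := c1) (b := c2)
    ⟨hc1.1, hc1.2.trans (h1.trans hal)⟩ ⟨h0.trans hc2.1, hc2.2.trans hal⟩ (hc1.2.trans hc2.1).le
  linarith

theorem K_nonpos {t : ℝ} (h0 : π / (2 * m) < t) (h1 : t < π / m) : K m (sm m) t ≤ 0 := by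
  by_contra hneg
  push Not at hneg
  have hap := al_pos m hm
  obtain ⟨c1, hc1, e1⟩ := K_deriv_exists m hm le_rfl hap (al_lt m hm)
  obtain ⟨c2, hc2, e2⟩ := K_deriv_exists m hm hap.le h0 h1
  rw [K_zero m hm, K_al m hm] at e1
  rw [K_al m hm] at e2
  have p1 := ss_pos m hm hc1.1 (hc1.2.trans (al_lt m hm))
  have p2 := ss_pos m hm (hap.trans hc2.1) (hc2.2.trans h1)
  have r2 : 0 < (K m (sm m) t - 0) / (t - π / (2 * m)) := div_pos (by linarith) (by linarith)
  rw [← e2] at r2
  have q1 : q m (sm m) c1 = 0 := by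
    have : sin c1 * sin (m * c1) * q m (sm m) c1 = 0 := by rw [e1]; simp
    rcases mul_eq_zero.mp this with h | h
    · exact absurd h p1.ne'
    · exact h
  have q2 : 0 < q m (sm m) c2 := by
    by_contra h; push Not at h
    have := mul_nonpos_of_nonneg_of_nonpos p2.le h
    linarith
  have hanti := q_antitoneOn m (sm m) (by omega) (a := c1) (b := c2)
    ⟨hc1.1, hc1.2.trans (al_lt m hm)⟩ ⟨hap.trans hc2.1, hc2.2.trans h1⟩ (hc1.2.trans hc2.1).le
  linarith

end main

end Pool.Agent.MPc64be7Lib
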