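import Pool.Agent.MPc64be7Lib.Trig
set_option autoImplicit false

open Real Set

namespace Pool.Agent.MPc64be7Lib

variable (m : ℕ) (hm : 3 ≤ m)

/-- the symbol at the critical gain -/
noncomputable def H (t : ℝ) : ℝ :=
  1 + et m * (cos (m * t) * cos t) - sm m * (sin (m * t) / sin t)

include hm

theorem hasDerivAt_H (t : ℝ) (h : sin t ≠ 0) :
    HasDerivAt (H m) (-(K m (sm m) t + sin t ^ 3 * cos (m * t) / m) / (sm m * sin t ^ 2)) t := by
  have hs := sm_pos m hm
  have hmm : (0 : ℝ) < m := by exact_mod_cast (by omega : 0 < m)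
  have h1 := hasDerivAt_sinm m t
  have h2 := hasDerivAt_cosm m t
  have h3 := (((h2.fun_mul (hasDerivAt_cos t)).const_mul (et m)).const_add 1)
  have h4 := (h1.fun_div (hasDerivAt_sin t) h).const_mul (sm m)
  have h6 : HasDerivAt (H m) _ t := h3.fun_sub h4
  convert h6 using 1
  unfold K et
  have hc : cos t ^ 2 = 1 - sin t ^ 2 := by rw [cos_sq']
  field_simp
  ring

theorem H_al : H m (π / (2 * m)) = 0 := by
  have hs := sm_pos m hm
  unfold H
  rw [m_mul_al m hm, cos_pi_div_two, sin_pi_div_two]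
  have : sin (π / (2 * m)) = sm m := rfl
  rw [this]
  field_simp
  ring

theorem sin_ne_of_mem {t : ℝ} (h0 : 0 < t) (h1 : t < π / m) : 0 < sin t := by
  have h3 : (3 : ℝ) ≤ m := by exact_mod_cast hm
  have hc : t < π := by
    rw [lt_div_iff₀ (by linarith)] at h1
    nlinarith [pi_pos]
  exact sin_pos_of_pos_of_lt_pi h0 hc

theorem H_deriv_exists {x y : ℝ} (hx : 0 < x) (hxy : x < y) (hy : y < π / m) :
    ∃ c ∈ Ioo x y, -(K m (sm m) c + sin c ^ 3 * cos (m * c) / m) / (sm m * sin c ^ 2)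
      = (H m y - H m x) / (y - x) := by
  apply exists_hasDerivAt_eq_slope (H m) _ hxy
  · intro c hc
    exact (hasDerivAt_H m hm c (sin_ne_of_mem m hm (by linarith [hc.1])
      (by linarith [hc.2])).ne').continuousAt.continuousWithinAt
  · intro c hc
    exact hasDerivAt_H m hm c (sin_ne_of_mem m hm (by linarith [hc.1]) (by linarith [hc.2])).ne'

theorem H_nonneg_left {t : ℝ} (h0 : 0 < t) (h1 : t < π / (2 * m)) : 0 ≤ H m t := by
  by_contra hneg
  push Not at hneg
  obtain ⟨c, hc, e⟩ := H_deriv_exists m hm h0 h1 (al_lt m hm)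
  rw [H_al m hm] at e
  have hmm : (0 : ℝ) < m := by exact_mod_cast (by omega : 0 < m)
  have r : 0 < (0 - H m t) / (π / (2 * m) - t) := div_pos (by linarith) (by linarith)
  rw [← e] at r
  have hK := K_nonneg m hm (h0.trans hc.1) hc.2
  have hs := sm_pos m hm
  have hsin := sin_ne_of_mem m hm (h0.trans hc.1) (hc.2.trans (al_lt m hm))
  have hcos : 0 ≤ cos (m * c) := by
    apply cos_nonneg_of_neg_pi_div_two_le_of_le
    · have : 0 < (m : ℝ) * c := by have := h0.trans hc.1; positivity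
      linarith [pi_pos]
    · have := hc.2
      rw [lt_div_iff₀ (by positivity)] at this
      linarith
  have : -(K m (sm m) c + sin c ^ 3 * cos (m * c) / m) / (sm m * sin c ^ 2) ≤ 0 := by
    apply div_nonpos_of_nonpos_of_nonneg
    · have : 0 ≤ sin c ^ 3 * cos (m * c) / m := by positivity
      linarith
    · positivity
  linarith

theorem H_nonneg_right {t : ℝ} (h0 : π / (2 * m) < t) (h1 : t < π / m) : 0 ≤ H m t := by
  by_contra hneg
  push Not at hneg
  have hap := al_pos m hm
  obtain ⟨c, hc, e⟩ := H_deriv_exists m hm hap h0 h1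
  rw [H_al m hm] at e
  have hmm : (0 : ℝ) < m := by exact_mod_cast (by omega : 0 < m)
  have r : (H m t - 0) / (t - π / (2 * m)) < 0 := div_neg_of_neg_of_pos (by linarith) (by linarith)
  rw [← e] at r
  have hK := K_nonpos m hm hc.1 (hc.2.trans h1)
  have hs := sm_pos m hm
  have hsin := sin_ne_of_mem m hm (hap.trans hc.1) (hc.2.trans h1)
  have hcos : cos (m * c) ≤ 0 := by
    apply cos_nonpos_of_pi_div_two_le_of_le
    · have := hc.1
      rw [div_lt_iff₀ (by positivity)] at this
      linarith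
    · have := hc.2.trans h1
      rw [lt_div_iff₀ (by positivity)] at this
      linarith [pi_pos]
  have : 0 ≤ -(K m (sm m) c + sin c ^ 3 * cos (m * c) / m) / (sm m * sin c ^ 2) := by
    apply div_nonneg
    · have : sin c ^ 3 * cos (m * c) / m ≤ 0 := by
        apply div_nonpos_of_nonpos_of_nonneg
        · exact mul_nonpos_of_nonneg_of_nonpos (by positivity) hcos
        · positivity
      linarith
    · positivity
  linarith

/-- `m s ≥ 3/2`, i.e. `η ≤ 2/3`, for `m ≥ 5`. -/
theorem m_sm_ge (hm5 : 5 ≤ m) : 3 / 2 ≤ m * sm m := by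
  have h5 : (5 : ℝ) ≤ m := by exact_mod_cast hm5
  have hpi1 := pi_gt_d2
  have hpi2 := pi_lt_d2
  set x : ℝ := π / (2 * m) with hx
  have hx0 : 0 < x := by positivity
  have hx1 : x ≤ 315 / 1000 := by
    rw [hx, div_le_iff₀ (by positivity)]
    nlinarith
  have hsin : x - x ^ 3 / 6 < sin x := sin_gt_sub_cube hx0
  have hmx : (m : ℝ) * x = π / 2 := by rw [hx]; field_simp
  have : (m : ℝ) * (x - x ^ 3 / 6) ≤ m * sm m := by
    unfold sm
    rw [← hx]
    gcongr
  have h2 : (m : ℝ) * (x - x ^ 3 / 6) = π / 2 * (1 - x ^ 2 / 6) := by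
    rw [← hmx]; ring
  rw [h2] at this
  have h3 : x ^ 2 ≤ (315 / 1000) ^ 2 := by gcongr
  nlinarith

theorem et_pos : 0 < et m := by
  have hs := sm_pos m hm
  have hmm : (0 : ℝ) < m := by exact_mod_cast (by omega : 0 < m)
  unfold et
  positivity

theorem et_le (hm5 : 5 ≤ m) : et m ≤ 2 / 3 := by
  have := m_sm_ge m hm hm5
  unfold et
  rw [div_le_div_iff₀ (by linarith) (by norm_num)]
  linarith

theorem H_nonneg_far (hm5 : 5 ≤ m) {t : ℝ} (h0 : π / m ≤ t) (h1 : t ≤ π / 2) : 0 ≤ H m t := by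
  have hmm : (0 : ℝ) < m := by exact_mod_cast (by omega : 0 < m)
  have hpi := pi_pos
  have ht0 : 0 < t := lt_of_lt_of_le (by positivity) h0
  have hsin : 0 < sin t := sin_pos_of_pos_of_lt_pi ht0 (by linarith)
  have hs := sm_pos m hm
  have he := et_pos m hm
  have he2 := et_le m hm hm5
  -- sin t ≥ sin (2 α) = 2 s cos α
  have hsint : 2 * sm m * cos (π / (2 * m)) ≤ sin t := by
    have h2 : 2 * sm m * cos (π / (2 * m)) = sin (π / m) := by
      unfold sm
      rw [← sin_two_mul]
      congr 1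
      field_simp
    rw [h2]
    apply sin_le_sin_of_le_of_le_pi_div_two _ h1 h0
    have : 0 < π / m := by positivity
    linarith
  have hcosal : 3 / 4 ≤ cos (π / (2 * m)) ^ 2 := by
    have h3 : cos (π / 6) ≤ cos (π / (2 * m)) :=
      cos_le_cos_of_nonneg_of_le_pi (al_pos m hm).le (by linarith) (al_le m hm)
    rw [cos_pi_div_six] at h3
    have h4 : (√3 / 2) ^ 2 ≤ cos (π / (2 * m)) ^ 2 := by gcongr
    have h5 : (√3 / 2) ^ 2 = 3 / 4 := by
      rw [div_pow, Real.sq_sqrt (by norm_num)]; norm_num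
    linarith
  have hsq : 3 * sm m ^ 2 ≤ sin t ^ 2 := by
    have hcp : 0 < cos (π / (2 * m)) := by
      apply cos_pos_of_mem_Ioo
      have := al_pos m hm
      have := al_le m hm
      constructor <;> linarith
    have h6 : (2 * sm m * cos (π / (2 * m))) ^ 2 ≤ sin t ^ 2 := by gcongr
    nlinarith [sq_nonneg (sm m)]
  -- Cauchy-Schwarz
  have hcs : sin (m * t) ^ 2 + cos (m * t) ^ 2 = 1 := sin_sq_add_cos_sq _
  have hcs2 : sin t ^ 2 + cos t ^ 2 = 1 := sin_sq_add_cos_sq _
  have key : (sm m * sin (m * t) / sin t - et m * (cos (m * t) * cos t)) ^ 2 ≤ 1 := by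
    set A := sm m / sin t with hA
    set B := et m * cos t with hB
    have hexp : sm m * sin (m * t) / sin t - et m * (cos (m * t) * cos t)
        = A * sin (m * t) - B * cos (m * t) := by rw [hA, hB]; ring
    rw [hexp]
    have hA2 : A ^ 2 ≤ 1 / 3 := by
      rw [hA, div_pow, div_le_div_iff₀ (by positivity) (by norm_num)]
      linarith
    have hB2 : B ^ 2 ≤ 4 / 9 := by
      rw [hB, mul_pow]
      have h7 : et m ^ 2 ≤ (2 / 3) ^ 2 := by gcongr
      have h8 : cos t ^ 2 ≤ 1 := by nlinarith [sq_nonneg (sin t)]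
      nlinarith [sq_nonneg (cos t), sq_nonneg (et m)]
    have hcsq : (A * sin (m * t) - B * cos (m * t)) ^ 2 + (A * cos (m * t) + B * sin (m * t)) ^ 2
        = A ^ 2 + B ^ 2 := by
      have : (A * sin (m * t) - B * cos (m * t)) ^ 2 + (A * cos (m * t) + B * sin (m * t)) ^ 2
        = (A ^ 2 + B ^ 2) * (sin (m * t) ^ 2 + cos (m * t) ^ 2) := by ring
      rw [this, hcs, mul_one]
    nlinarith [sq_nonneg (A * cos (m * t) + B * sin (m * t))]
  have h9 : sm m * sin (m * t) / sin t - et m * (cos (m * t) * cos t) ≤ 1 := by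
    nlinarith
  unfold H
  have h10 : sm m * (sin (m * t) / sin t) = sm m * sin (m * t) / sin t := by ring
  rw [h10]
  linarith

theorem H_nonneg (hm5 : 5 ≤ m) {t : ℝ} (h0 : 0 < t) (h1 : t ≤ π / 2) : 0 ≤ H m t := by
  rcases lt_or_ge t (π / m) with h | h
  · rcases lt_trichotomy t (π / (2 * m)) with h2 | h2 | h2
    · exact H_nonneg_left m hm h0 h2
    · rw [h2, H_al m hm]
    · exact H_nonneg_right m hm h2 h
  · exact H_nonneg_far m hm hm5 h h1

end Pool.Agent.MPc64be7Lib
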